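import Pool.Agent.H428.V.JacT

/-!
# The transfer theorem
-/

set_option autoImplicit false
set_option linter.unusedSectionVars false

namespace Pool.Agent.H428.V

open Polynomial IsDedekindDomain

open scoped Classical

open Pool.Agent.TH115.GD (Sep Comp incl rs ak)
open Pool.Agent.Y160.SL (Jac jm ShaTriv IsCoc IsCobOf)

/-- An isomorphism of the separable closures. -/
lemma exists_e (K L : Type) [Field K] [Field L] [Algebra K L] [Algebra.IsSeparable K L] :
    Nonempty (Sep L ≃ₐ[K] Sep K) := by
  haveI : Algebra.IsSeparable L (Sep L) := IsSepClosure.separable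
  haveI : Algebra.IsSeparable K (Sep L) := Algebra.IsSeparable.trans K L (Sep L)
  haveI : IsSepClosure K (Sep L) := ⟨inferInstance, inferInstance⟩
  exact ⟨IsSepClosure.equiv K (Sep L) (Sep K)⟩

/-- **The transfer.** -/
theorem transfer {p : ℕ} (hp : p.Prime) {K S L A : Type} [Field K] [CommRing S]
    [IsDedekindDomain S] [Algebra S K] [IsFractionRing S K] [Field L] [CommRing A]
    [IsDedekindDomain A] [Algebra A L] [IsFractionRing A L] [Algebra K L] [FiniteDimensional K L]
    [IsGalois K L] [Algebra S A] [Algebra S L] [IsScalarTower S K L] [IsScalarTower S A L]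
    [Algebra.IsIntegral S A] {I : Type} {q : I → ℕ} {f : I → L[X]}
    (hg : ∀ i, ∃ ζ : L, Pool.Agent.Y160.SQ.Good (q i) ζ (f i))
    (h : ∀ i, ShaTriv p (q i) A (f i))
    (hu : ∀ i, ∀ P : Jac (q i) (f i) L, ∃! Q : Jac (q i) (f i) L, p • Q = P)
    (X : GroupFunctor K) (n : ℕ) (hX : IsFactor X (jacobians q f) n) :
    NoPartUpTo X S p (n * Module.finrank K L) ∧ (p.Coprime n → NoPart X S p) := by
  obtain ⟨N⟩ := hX.nat2
  obtain ⟨e⟩ := exists_e K L
  choose ζ hζ using hg
  obtain ⟨h1, h2⟩ := pts_jac (p := p) hζ hu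
  haveI : Algebra.IsSeparable L (Sep L) := IsSepClosure.separable
  have key : ∀ (c : Cochain X) (m : ℕ), IsShaCocycle S c → IsCoboundary (p ^ m • c) →
      CobB (jacobians q f) (push N e c) := by
    intro c m hc hm
    refine sha_jac A h (push_coc N e hc.1) (fun w => ?_) (m := m) ?_
    · obtain ⟨v, ⟨θ⟩⟩ := exists_comp (S := S) (L := L) K w
      exact push_loc N e hc.1 (hc.2 v) θ
    · have h3 := push_cob N e hm
      have h4 : push N e (p ^ m • c) = p ^ m • push N e c := by
        funext σ
        exact push_nsmul N e c (p ^ m) σ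
      rwa [h4] at h3
  refine ⟨⟨fun P hP k => pts_upTo N e h2 P hP k, fun c m hc hm => kill N e hc.1 (key c m hc hm)⟩,
    fun hn => ⟨pts_cop N e h1 h2 hn, fun c m hc hm => ?_⟩⟩
  rw [one_smul]
  exact kill_cop N e hp hc.1 (key c m hc hm) hn h1 h2 hm

end Pool.Agent.H428.V
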