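import Pool.Agent.H428.V.Stm
import Pool.Agent.H428.V.Main

/-!
# Comparison of the two forms of the definitions
-/

set_option autoImplicit false
set_option linter.all false

namespace Pool.Agent.H428.V.B

open Polynomial IsDedekindDomain

open Pool.Agent.TH115.GD (Sep Comp)

open Pool.Agent.Y160.SL (Jac jm ShaTriv)

section

variable {L : Type} [Field L] {I : Type} (q : I → ℕ) (f : I → L[X])

theorem mapPts_add {Ω Ω' : SepExt L} (φ : Ω →ₐ[L] Ω') (P Q : Pts q f Ω) :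
    mapPts q f φ (P + Q) = mapPts q f φ P + mapPts q f φ Q :=
  funext fun i => map_add (jm (q i) (f i) φ) (P i) (Q i)

theorem mapPts_id (Ω : SepExt L) (P : Pts q f Ω) : mapPts q f (AlgHom.id L Ω) P = P :=
  funext fun i => Pool.Agent.Y160.SQ.jm_id (P i)

theorem mapPts_comp {Ω Ω' Ω'' : SepExt L} (φ : Ω →ₐ[L] Ω') (ψ : Ω' →ₐ[L] Ω'') (P : Pts q f Ω) :
    mapPts q f (ψ.comp φ) P = mapPts q f ψ (mapPts q f φ P) :=
  funext fun i => (Pool.Agent.Y160.SQ.jm_jm φ ψ (P i)).symm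

/-- The product of the Jacobians of the curves `w ^ (q i) = f i (x)` over `L`, as a functor on the
separably closed extension fields of `L`. -/
noncomputable def jacobians : GroupFunctor L where
  pts := Pts q f
  map φ := AddMonoidHom.mk' (mapPts q f φ) (mapPts_add q f φ)
  map_id := mapPts_id q f
  map_comp := mapPts_comp q f

end

section

variable {K : Type} [Field K] (A : GroupFunctor K)

/-- the functor in the other form -/
def old : V.GroupFunctor K where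
  pts Ω _ _ _ := A.pts ⟨Ω⟩
  grp Ω _ _ _ := A.grp ⟨Ω⟩
  map {Ω Ω' _ _ _ _ _ _} φ := A.map (Ω := ⟨Ω⟩) (Ω' := ⟨Ω'⟩) φ
  map_id Ω _ _ _ P := A.map_id ⟨Ω⟩ P
  map_comp {Ω Ω' Ω'' _ _ _ _ _ _ _ _ _} φ ψ P :=
    A.map_comp (Ω := ⟨Ω⟩) (Ω' := ⟨Ω'⟩) (Ω'' := ⟨Ω''⟩) φ ψ P

variable {A}

lemma old_cocycle (c : Cochain A) : IsCocycle c ↔ V.IsCocycle (A := old A) c := Iff.rfl

lemma old_coboundary (c : Cochain A) : IsCoboundary c ↔ V.IsCoboundary (A := old A) c := Iff.rfl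

lemma old_locTriv (E : Type) [Field E] [Algebra K E] (c : Cochain A) :
    LocTriv E c ↔ V.LocTriv (A := old A) E c := Iff.rfl

variable (S : Type) [CommRing S] [IsDedekindDomain S] [Algebra S K] [IsFractionRing S K]

lemma old_sha (c : Cochain A) : IsShaCocycle S c ↔ V.IsShaCocycle (A := old A) S c := Iff.rfl

lemma old_kills (p N : ℕ) : KillsSha A S p N ↔ V.KillsSha (old A) S p N := Iff.rfl

lemma old_no (p : ℕ) : NoPart A S p ↔ V.NoPart (old A) S p := Iff.rfl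

lemma old_upTo (p N : ℕ) : NoPartUpTo A S p N ↔ V.NoPartUpTo (old A) S p N := Iff.rfl

end

section

variable {K L : Type} [Field K] [Field L] [Algebra K L] {A : GroupFunctor K}

/-- the identity -/
def toDown (K : Type) {L : Type} [Field K] [Field L] [Algebra K L] (Ω : Type) [Field Ω]
    [IsSepClosed Ω] [Algebra K Ω] [Algebra L Ω] [IsScalarTower K L Ω] :
    (⟨Ω⟩ : SepExt K) →ₐ[K] (SepExt.down K (⟨Ω⟩ : SepExt L)) :=
  { RingHom.id Ω with
    commutes' := fun x => IsScalarTower.algebraMap_apply K L Ω x }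

/-- the identity -/
def ofDown (K : Type) {L : Type} [Field K] [Field L] [Algebra K L] (Ω : Type) [Field Ω]
    [IsSepClosed Ω] [Algebra K Ω] [Algebra L Ω] [IsScalarTower K L Ω] :
    (SepExt.down K (⟨Ω⟩ : SepExt L)) →ₐ[K] (⟨Ω⟩ : SepExt K) :=
  { RingHom.id Ω with
    commutes' := fun x => (IsScalarTower.algebraMap_apply K L Ω x).symm }

lemma mm {Ω Ω' Ω'' Ω₀ : SepExt K} (φ : Ω →ₐ[K] Ω') (ψ : Ω' →ₐ[K] Ω'') (φ' : Ω →ₐ[K] Ω₀)
    (ψ' : Ω₀ →ₐ[K] Ω'') (h : ∀ x, ψ (φ x) = ψ' (φ' x)) (P : A.pts Ω) :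
    A.map ψ (A.map φ P) = A.map ψ' (A.map φ' P) := by
  rw [← A.map_comp, ← A.map_comp]
  congr 1
  congr 1
  ext x
  exact h x

lemma old_factor {B : GroupFunctor L} {n : ℕ} (h : IsFactor A B n) :
    V.IsFactor (old A) (old B) n := by
  obtain ⟨φ, ψ, h1⟩ := h
  refine ⟨fun Ω _ _ _ _ _ => (φ.app ⟨Ω⟩).comp (A.map (toDown K (L := L) Ω)),
    fun Ω _ _ _ _ _ => (A.map (ofDown K (L := L) Ω)).comp (ψ.app ⟨Ω⟩), ?_, ?_, ?_⟩
  · intro Ω Ω' _ _ _ _ _ _ _ _ _ _ f P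
    have h2 := φ.natural (Ω := ⟨Ω⟩) (Ω' := ⟨Ω'⟩) f (A.map (toDown K (L := L) Ω) P)
    have h3 : A.map (toDown K (L := L) Ω') (A.map (Ω := ⟨Ω⟩) (Ω' := ⟨Ω'⟩)
        (f.restrictScalars K) P) = A.map (downHom K (Ω := ⟨Ω⟩) (Ω' := ⟨Ω'⟩) f)
        (A.map (toDown K (L := L) Ω) P) :=
      mm (A := A) (Ω := ⟨Ω⟩) (Ω' := ⟨Ω'⟩) (f.restrictScalars K) (toDown K (L := L) Ω')
        (toDown K (L := L) Ω) (downHom K (Ω := ⟨Ω⟩) (Ω' := ⟨Ω'⟩) f) (fun x => rfl) P
    exact (congrArg (φ.app ⟨Ω'⟩) h3).trans h2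
  · intro Ω Ω' _ _ _ _ _ _ _ _ _ _ f Q
    have h2 := ψ.natural (Ω := ⟨Ω⟩) (Ω' := ⟨Ω'⟩) f Q
    have h3 := congrArg (A.map (ofDown K (L := L) Ω')) h2
    refine Eq.trans h3 ?_
    exact mm (A := A) (downHom K (Ω := ⟨Ω⟩) (Ω' := ⟨Ω'⟩) f) (ofDown K (L := L) Ω')
      (ofDown K (L := L) Ω) (AlgHom.restrictScalars K f : (⟨Ω⟩ : SepExt K) →ₐ[K] (⟨Ω'⟩ : SepExt K))
      (fun x => rfl) (ψ.app ⟨Ω⟩ Q)
  · intro Ω _ _ _ _ _ P
    have h2 := h1 ⟨Ω⟩ (A.map (toDown K (L := L) Ω) P)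
    have h3 := congrArg (A.map (ofDown K (L := L) Ω)) h2
    refine Eq.trans h3 ?_
    refine (map_nsmul (A.map (ofDown K (L := L) Ω)) n (A.map (toDown K (L := L) Ω) P)).trans ?_
    have h4 : A.map (ofDown K (L := L) Ω) (A.map (toDown K (L := L) Ω) P) = P := by
      refine (mm (A := A) (toDown K (L := L) Ω) (ofDown K (L := L) Ω) (AlgHom.id K _)
        (AlgHom.id K _) (fun x => rfl) P).trans ?_
      rw [A.map_id, A.map_id]
    exact congrArg (fun z => n • z) h4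

end

lemma factor_jac {K L : Type} [Field K] [Field L] [Algebra K L] {I : Type} {q : I → ℕ}
    {f : I → L[X]} {A : GroupFunctor K} {n : ℕ} (h : IsFactor A (jacobians q f) n) :
    V.IsFactor (old A) (V.jacobians q f) n := by
  have h1 := old_factor h
  exact h1

/-- **The transfer.** -/
theorem transfer {p : ℕ} (hp : p.Prime) {K S L A : Type} [Field K] [CommRing S]
    [IsDedekindDomain S] [Algebra S K] [IsFractionRing S K] [Field L] [CommRing A]
    [IsDedekindDomain A] [Algebra A L] [IsFractionRing A L] [Algebra K L] [FiniteDimensional K L]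
    [IsGalois K L] [Algebra S A] [Algebra S L] [IsScalarTower S K L] [IsScalarTower S A L]
    [Algebra.IsIntegral S A] {I : Type} {q : I → ℕ} {f : I → L[X]}
    (hg : ∀ i, ∃ ζ : L, Pool.Agent.Y160.SQ.Good (q i) ζ (f i))
    (h : ∀ i, ShaTriv p (q i) A (f i))
    (hu : ∀ i, ∀ P : Jac (q i) (f i) L, ∃! Q : Jac (q i) (f i) L, p • Q = P)
    (X : GroupFunctor K) (n : ℕ) (hX : IsFactor X (jacobians q f) n) :
    NoPartUpTo X S p (n * Module.finrank K L) ∧ (p.Coprime n → NoPart X S p) :=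
  V.transfer hp hg h hu (old X) n (factor_jac hX)

end Pool.Agent.H428.V.B
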