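import Pool.Graph.R_seed8.Y160.SL.Jac

/-!
# Group functors over a field and their Tate-Shafarevich groups
-/

set_option autoImplicit false
set_option linter.unusedSectionVars false

namespace Pool.Agent.H428.V

open Polynomial IsDedekindDomain

open scoped Classical

open Pool.Agent.TH115.GD (Sep Comp)

/-- A covariant functor `A` from the separably closed extension fields of `K` to the abelian groups. -/
structure GroupFunctor (K : Type) [Field K] where
  /-- the group `A(Ω)` -/
  pts : ∀ (Ω : Type) [Field Ω] [IsSepClosed Ω] [Algebra K Ω], Type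
  [grp : ∀ (Ω : Type) [Field Ω] [IsSepClosed Ω] [Algebra K Ω], AddCommGroup (pts Ω)]
  /-- the homomorphism `A(Ω) → A(Ω')` -/
  map : ∀ {Ω Ω' : Type} [Field Ω] [IsSepClosed Ω] [Algebra K Ω] [Field Ω'] [IsSepClosed Ω']
    [Algebra K Ω'] (_ : Ω →ₐ[K] Ω'), pts Ω →+ pts Ω'
  map_id : ∀ (Ω : Type) [Field Ω] [IsSepClosed Ω] [Algebra K Ω] (P : pts Ω),
    map (AlgHom.id K Ω) P = P
  map_comp : ∀ {Ω Ω' Ω'' : Type} [Field Ω] [IsSepClosed Ω] [Algebra K Ω] [Field Ω'] [IsSepClosed Ω']
    [Algebra K Ω'] [Field Ω''] [IsSepClosed Ω''] [Algebra K Ω''] (φ : Ω →ₐ[K] Ω')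
    (ψ : Ω' →ₐ[K] Ω'') (P : pts Ω), map (ψ.comp φ) P = map ψ (map φ P)

attribute [instance] GroupFunctor.grp

/-- The absolute Galois group of `K`; `Sep K` is the separable closure of `K`. -/
abbrev Gal (K : Type) [Field K] : Type := Sep K ≃ₐ[K] Sep K

section

variable {K : Type} [Field K] (A : GroupFunctor K)

/-- Cochains of the absolute Galois group of `K` with values in `A`. -/
abbrev Cochain : Type := Gal K → A.pts (Sep K)

variable {A}

/-- `c` is a continuous cocycle with values in the discrete group `A(Sep K)`: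
`c (σ τ) = c σ + σ (c τ)`. -/
def IsCocycle (c : Cochain A) : Prop :=
  IsLocallyConstant c ∧ ∀ σ τ : Gal K, c (σ * τ) = c σ + A.map σ.toAlgHom (c τ)

/-- `c` is a coboundary: `c σ = σ P - P`. -/
def IsCoboundary (c : Cochain A) : Prop :=
  ∃ P : A.pts (Sep K), ∀ σ : Gal K, c σ = A.map σ.toAlgHom P - P

/-- The restriction of the class of `c` to the absolute Galois group of the extension field `E` of `K`
is zero: for a `K`-embedding `ι` of the separable closures there is a point `P` with `c σ = τ P - P` for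
every automorphism `τ` of the separable closure of `E` with restriction `σ`. -/
def LocTriv (E : Type) [Field E] [Algebra K E] (c : Cochain A) : Prop :=
  ∃ (ι : Sep K →ₐ[K] Sep E) (P : A.pts (Sep E)), ∀ (τ : Gal E) (σ : Gal K),
    (∀ x, τ (ι x) = ι (σ x)) → A.map ι (c σ) = A.map (τ.toAlgHom.restrictScalars K) P - P

/-- `c` is a continuous cocycle which is trivial over the completions of `K` at all the maximal ideals
of `S`. -/
def IsShaCocycle (S : Type) [CommRing S] [IsDedekindDomain S] [Algebra S K] [IsFractionRing S K]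
    (c : Cochain A) : Prop :=
  IsCocycle c ∧ ∀ v : HeightOneSpectrum S, LocTriv (Comp S K v) c

variable (A)

/-- `A(K)`: the points over the separable closure which are fixed by the absolute Galois group. -/
def RatPts : Set (A.pts (Sep K)) := {P | ∀ σ : Gal K, A.map σ.toAlgHom P = P}

variable (S : Type) [CommRing S] [IsDedekindDomain S] [Algebra S K] [IsFractionRing S K]

/-- `n` kills the `p`-primary part of the group of the classes in `H ^ 1 (K, A)` which are locally
trivial at the maximal ideals of `S`. -/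
def KillsSha (p n : ℕ) : Prop :=
  ∀ (c : Cochain A) (m : ℕ), IsShaCocycle S c → IsCoboundary (p ^ m • c) → IsCoboundary (n • c)

/-- Multiplication by `p` is bijective on `A(K)`, and the `p`-primary part of the group of the classes
in `H ^ 1 (K, A)` which are locally trivial at the maximal ideals of `S` is zero. -/
def NoPart (p : ℕ) : Prop :=
  Set.BijOn (fun P => p • P) (RatPts A) (RatPts A) ∧ KillsSha A S p 1

/-- `N P` is divisible by all powers of `p` in `A(K)` for all `P` in `A(K)`, and `N` kills the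
`p`-primary part of the group of the classes in `H ^ 1 (K, A)` which are locally trivial at the maximal
ideals of `S`. -/
def NoPartUpTo (p N : ℕ) : Prop :=
  (∀ P ∈ RatPts A, ∀ k : ℕ, ∃ Q ∈ RatPts A, p ^ k • Q = N • P) ∧ KillsSha A S p N

end

section factor

variable {K L : Type} [Field K] [Field L] [Algebra K L]

/-- There are natural homomorphisms `A → B → A` over `L` with the composite `n`. -/
def IsFactor (A : GroupFunctor K) (B : GroupFunctor L) (n : ℕ) : Prop :=
  ∃ (φ : ∀ (Ω : Type) [Field Ω] [IsSepClosed Ω] [Algebra K Ω] [Algebra L Ω] [IsScalarTower K L Ω],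
        A.pts Ω →+ B.pts Ω)
    (ψ : ∀ (Ω : Type) [Field Ω] [IsSepClosed Ω] [Algebra K Ω] [Algebra L Ω] [IsScalarTower K L Ω],
        B.pts Ω →+ A.pts Ω),
    (∀ (Ω Ω' : Type) [Field Ω] [IsSepClosed Ω] [Algebra K Ω] [Algebra L Ω] [IsScalarTower K L Ω]
      [Field Ω'] [IsSepClosed Ω'] [Algebra K Ω'] [Algebra L Ω'] [IsScalarTower K L Ω']
      (f : Ω →ₐ[L] Ω') (P : A.pts Ω), φ Ω' (A.map (f.restrictScalars K) P) = B.map f (φ Ω P)) ∧
    (∀ (Ω Ω' : Type) [Field Ω] [IsSepClosed Ω] [Algebra K Ω] [Algebra L Ω] [IsScalarTower K L Ω]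
      [Field Ω'] [IsSepClosed Ω'] [Algebra K Ω'] [Algebra L Ω'] [IsScalarTower K L Ω']
      (f : Ω →ₐ[L] Ω') (Q : B.pts Ω), ψ Ω' (B.map f Q) = A.map (f.restrictScalars K) (ψ Ω Q)) ∧
    (∀ (Ω : Type) [Field Ω] [IsSepClosed Ω] [Algebra K Ω] [Algebra L Ω] [IsScalarTower K L Ω]
      (P : A.pts Ω), ψ Ω (φ Ω P) = n • P)

end factor

end Pool.Agent.H428.V
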