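import Pool.Graph.R_seed8.Y160.SQ.Lam

/-!
# The map `J(K) → J(Ω)` is injective (after the case `ℓ = 2`, `Pool.Agent.N655.JB.inj`, of the library)
-/

set_option autoImplicit false
set_option linter.all false

open Polynomial

namespace Pool.Agent.H428.V.JB

open Pool.Agent.Y160.SQ
open Pool.Agent.TH115.GD (incl rs ak)

/-- A retraction of `φ` which is linear over `A`. -/
def Ret {A B : Type} [CommRing A] [CommRing B] (φ : A →+* B) : Prop :=
  ∃ π : B →+ A, (∀ a b, π (φ a * b) = a * π b) ∧ π 1 = 1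

theorem ret_field (K Ω : Type) [Field K] [Field Ω] [Algebra K Ω] : Ret (algebraMap K Ω) := by
  obtain ⟨g, hg⟩ := LinearMap.exists_leftInverse_of_injective (Algebra.linearMap K Ω)
    (LinearMap.ker_eq_bot.2 (algebraMap K Ω).injective)
  refine ⟨g.toAddMonoidHom, fun a b => ?_, ?_⟩
  · show g (algebraMap K Ω a * b) = a * g b
    rw [← Algebra.smul_def, map_smul, smul_eq_mul]
  · have := congrArg (fun h : K →ₗ[K] K => h 1) hg
    simpa using this

/-- The additive map given by `π` on the coefficients. -/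
theorem exists_coeffwise {A B : Type} [CommRing A] [CommRing B] (π : B →+ A) :
    ∃ P : B[X] →+ A[X], ∀ p n, (P p).coeff n = π (p.coeff n) := by
  have h : ∀ p : B[X], ∃ q : A[X], ∀ n, q.coeff n = π (p.coeff n) := by
    intro p
    refine ⟨∑ i ∈ Finset.range (p.natDegree + 1), monomial i (π (p.coeff i)), fun n => ?_⟩
    rw [finset_sum_coeff]
    simp only [coeff_monomial]
    rw [Finset.sum_ite_eq']
    split_ifs with h
    · rfl
    · rw [Finset.mem_range, not_lt] at h
      rw [coeff_eq_zero_of_natDegree_lt (by omega), map_zero]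
  choose P hP using h
  refine ⟨⟨⟨P, ?_⟩, ?_⟩, hP⟩
  · ext n
    rw [hP, coeff_zero, map_zero, coeff_zero]
  · intro p q
    ext n
    show (P (p + q)).coeff n = (P p + P q).coeff n
    rw [hP, coeff_add, coeff_add, map_add, hP, hP]

theorem ret_poly {A B : Type} [CommRing A] [CommRing B] {φ : A →+* B} (h : Ret φ) :
    Ret (mapRingHom φ) := by
  obtain ⟨π, h1, h2⟩ := h
  obtain ⟨P, hP⟩ := exists_coeffwise π
  refine ⟨P, fun a b => ?_, ?_⟩
  · ext n
    rw [hP, coeff_mul, coeff_mul, map_sum]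
    refine Finset.sum_congr rfl fun i _ => ?_
    rw [coe_mapRingHom, coeff_map, h1, hP]
  · ext n
    rw [hP, coeff_one, coeff_one]
    split_ifs
    · exact h2
    · exact map_zero π

theorem ret_mem {A B : Type} [CommRing A] [CommRing B] {φ : A →+* B} {π : B →+ A}
    (h1 : ∀ a b, π (φ a * b) = a * π b) (I : Ideal A) {x : B} (hx : x ∈ I.map φ) : π x ∈ I := by
  have key : ∀ x ∈ I.map φ, ∀ a, π (x * a) ∈ I := by
    intro x hx
    unfold Ideal.map at hx
    induction hx using Submodule.span_induction with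
    | mem x hx =>
      obtain ⟨i, hi, rfl⟩ := hx
      intro a
      rw [h1]
      exact I.mul_mem_right _ hi
    | zero =>
      intro a
      rw [zero_mul, map_zero]
      exact I.zero_mem
    | add x y _ _ hx hy =>
      intro a
      rw [add_mul, map_add]
      exact I.add_mem (hx a) (hy a)
    | smul b x _ hx =>
      intro a
      have e : (b • x) * a = x * (b * a) := by rw [smul_eq_mul]; ring
      rw [e]
      exact hx _
  have := key x hx 1
  rwa [mul_one] at this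

theorem ret_surj {A B A' B' : Type} [CommRing A] [CommRing B] [CommRing A'] [CommRing B']
    {φ : A →+* B} (h : Ret φ) (q : A →+* A') (q' : B →+* B') (hq : Function.Surjective q)
    (hq' : Function.Surjective q') (ψ : A' →+* B') (hc : ψ.comp q = q'.comp φ)
    (hk : RingHom.ker q' ≤ (RingHom.ker q).map φ) : Ret ψ := by
  obtain ⟨π, h1, h2⟩ := h
  have h3 : ∀ b b' : B, q' b = q' b' → q (π b) = q (π b') := by
    intro b b' hb
    have h4 : b - b' ∈ RingHom.ker q' := by
      rw [RingHom.mem_ker, map_sub, hb, sub_self]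
    have h5 := ret_mem h1 _ (hk h4)
    rw [RingHom.mem_ker, map_sub, map_sub, sub_eq_zero] at h5
    exact h5
  have h6 : ∀ b : B', ∃ a : A', ∀ b0, q' b0 = b → a = q (π b0) := by
    intro b
    obtain ⟨b1, rfl⟩ := hq' b
    exact ⟨q (π b1), fun b0 hb => h3 _ _ hb.symm⟩
  choose P hP using h6
  have hP' : ∀ b0, P (q' b0) = q (π b0) := fun b0 => hP _ _ rfl
  refine ⟨⟨⟨P, ?_⟩, ?_⟩, ?_, ?_⟩
  · rw [← map_zero q', hP', map_zero, map_zero]
  · intro x y
    obtain ⟨x, rfl⟩ := hq' x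
    obtain ⟨y, rfl⟩ := hq' y
    show P (q' x + q' y) = P (q' x) + P (q' y)
    rw [← map_add, hP', hP', hP', map_add, map_add]
  · intro a b
    obtain ⟨a, rfl⟩ := hq a
    obtain ⟨b, rfl⟩ := hq' b
    show P (ψ (q a) * q' b) = q a * P (q' b)
    have e : ψ (q a) = q' (φ a) := congrArg (fun g : A →+* B' => g a) hc
    rw [e, ← map_mul, hP', h1, hP', map_mul]
  · show P 1 = 1
    rw [← map_one q', hP', h2, map_one]

theorem ret_ideal {A B : Type} [CommRing A] [CommRing B] {φ : A →+* B} (h : Ret φ) {I J : Ideal A}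
    (hIJ : I.map φ ≤ J.map φ) : I ≤ J := by
  obtain ⟨π, h1, h2⟩ := h
  intro x hx
  have h3 : φ x ∈ J.map φ := hIJ (Ideal.mem_map_of_mem _ hx)
  have h4 := ret_mem h1 J h3
  have h5 : π (φ x) = x := by
    have := h1 x 1
    rwa [mul_one, h2, mul_one] at this
  rwa [h5] at h4

theorem crMap_mk {ℓ : ℕ} {E E' : Type} [CommRing E] [CommRing E'] (φ : E →+* E') {f : E[X]}
    {f' : E'[X]} (h : f.map φ = f') (p : E[X][X]) :
    crMap ℓ φ f f' h (AdjoinRoot.mk _ p) =
      AdjoinRoot.mk (X ^ ℓ - C f' : E'[X][X]) (p.map (mapRingHom φ)) := by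
  have key : (crMap ℓ φ f f' h).comp (AdjoinRoot.mk (X ^ ℓ - C f : E[X][X])) =
      (AdjoinRoot.mk (X ^ ℓ - C f' : E'[X][X])).comp (mapRingHom (mapRingHom φ)) := by
    apply Polynomial.ringHom_ext'
    · apply RingHom.ext
      intro q
      show crMap ℓ φ f f' h (xp ℓ f q) = AdjoinRoot.mk _ (mapRingHom (mapRingHom φ) (C q))
      rw [crMap_xp, coe_mapRingHom, map_C]
      rfl
    · show crMap ℓ φ f f' h (yy ℓ f) = AdjoinRoot.mk _ (mapRingHom (mapRingHom φ) X)
      rw [crMap_yy, coe_mapRingHom, map_X]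
      rfl
  exact congrArg (fun g : E[X][X] →+* CR ℓ f' => g p) key

theorem ret_crMap {ℓ : ℕ} {E E' : Type} [CommRing E] [CommRing E'] (φ : E →+* E') {f : E[X]}
    {f' : E'[X]} (h : f.map φ = f') (hr : Ret φ) : Ret (crMap ℓ φ f f' h) := by
  refine ret_surj (ret_poly (ret_poly hr)) (AdjoinRoot.mk (X ^ ℓ - C f : E[X][X]))
    (AdjoinRoot.mk (X ^ ℓ - C f' : E'[X][X])) AdjoinRoot.mk_surjective AdjoinRoot.mk_surjective
    _ ?_ ?_
  · apply RingHom.ext
    intro p
    exact crMap_mk φ h p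
  · intro x hx
    rw [RingHom.mem_ker, AdjoinRoot.mk_eq_zero] at hx
    obtain ⟨y, rfl⟩ := hx
    apply Ideal.mul_mem_right
    have e : (X ^ ℓ - C f' : E'[X][X]) = mapRingHom (mapRingHom φ) (X ^ ℓ - C f) := by
      rw [map_sub, map_pow, coe_mapRingHom, map_X, map_C, coe_mapRingHom, h]
    rw [e]
    apply Ideal.mem_map_of_mem
    rw [RingHom.mem_ker, AdjoinRoot.mk_self]

section main

variable {ℓ : ℕ} {K Ω : Type} [Field K] [Field Ω] [Algebra K Ω] [IsGalois K Ω] {f : K[X]}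

theorem incl_eq : ((incl K K Ω : K →ₐ[K] Ω) : K →+* Ω) = algebraMap K Ω := by
  ext x
  rfl

theorem ret_cm (ℓ : ℕ) (f : K[X]) : Ret (cm ℓ f (incl K K Ω)) := by
  apply ret_crMap
  have := ret_field K Ω
  rwa [← incl_eq] at this

/-- A principal ideal which is invariant under the Galois group has a generator over `K`. -/
theorem desc (H : Hyps) {ζ : K} (hg : Good ℓ ζ f) (g : CR ℓ (f.map (algebraMap K Ω))) (h0 : g ≠ 0)
    (h : ∀ τ : Ω ≃ₐ[K] Ω, Ideal.span {cm ℓ f (ak τ) g} = Ideal.span {g}) :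
    ∃ g0 : CR ℓ (f.map (algebraMap K K)), Ideal.span {cm ℓ f (incl K K Ω) g0} = Ideal.span {g} := by
  haveI := H.ring ℓ Ω _ _ (hg.up Ω)
  have hun := (H.norm ℓ Ω _ _ (hg.up Ω)).2.1
  have h2 : ℓ ≠ 0 := hg.ne
  obtain ⟨p, hp, rfl⟩ := cr_repr h2 g
  have hp0 : p ≠ 0 := by
    rintro rfl
    exact h0 (map_zero _)
  obtain ⟨i, j, hij⟩ : ∃ i j, (p.coeff i).coeff j ≠ 0 := by
    by_contra hcon
    push Not at hcon
    apply hp0
    ext i j
    rw [hcon, coeff_zero, coeff_zero]
  set c := ((p.coeff i).coeff j)⁻¹ with hc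
  have hc0 : c ≠ 0 := inv_ne_zero hij
  set p1 : (Polynomial Ω)[X] := C (C c) * p with hp1
  have hd1 : p1.natDegree < ℓ := lt_of_le_of_lt (natDegree_C_mul_le _ _) hp
  have hc1 : ∀ (q : (Polynomial Ω)[X]) (d : Ω) (m n : ℕ), ((C (C d) * q).coeff m).coeff n =
      d * (q.coeff m).coeff n := by
    intro q d m n
    rw [coeff_C_mul, coeff_C_mul]
  have hcoe : (p1.coeff i).coeff j = 1 := by
    rw [hp1, hc1, hc, inv_mul_cancel₀ hij]
  have hcu : ∀ d : Ω, d ≠ 0 → IsUnit (AdjoinRoot.mk (X ^ ℓ - C (f.map (algebraMap K Ω)) : (Polynomial Ω)[X])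
      (C (C d))) := by
    intro d hd
    apply IsUnit.map
    exact (isUnit_C.2 (isUnit_C.2 (Ne.isUnit hd)))
  have hsp : Ideal.span {AdjoinRoot.mk (X ^ ℓ - C (f.map (algebraMap K Ω)) : (Polynomial Ω)[X]) p1} =
      Ideal.span {AdjoinRoot.mk (X ^ ℓ - C (f.map (algebraMap K Ω)) : (Polynomial Ω)[X]) p} := by
    rw [hp1, map_mul]
    exact Ideal.span_singleton_mul_left_unit (hcu c hc0) _
  have hfix : ∀ τ : Ω ≃ₐ[K] Ω, p1.map (mapRingHom (τ : Ω →+* Ω)) = p1 := by
    intro τ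
    have e1 := h τ
    have e2 : cm ℓ f (ak τ) (AdjoinRoot.mk _ p) = AdjoinRoot.mk _
        (p.map (mapRingHom (τ : Ω →+* Ω))) := crMap_mk _ _ p
    rw [e2, Ideal.span_singleton_eq_span_singleton] at e1
    obtain ⟨u, hu⟩ := e1.symm
    obtain ⟨d, hd, hud⟩ := hun u u.isUnit
    rw [hud] at hu
    have e3 : AdjoinRoot.mk (X ^ ℓ - C (f.map (algebraMap K Ω)) : (Polynomial Ω)[X])
        (p * C (C d) - p.map (mapRingHom (τ : Ω →+* Ω))) = 0 := by
      rw [map_sub, sub_eq_zero, map_mul]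
      exact hu
    have e4 := cr_repr_zero h2 (by
      refine lt_of_le_of_lt (natDegree_sub_le _ _) (max_lt ?_ ?_)
      · rw [mul_comm]
        exact lt_of_le_of_lt (natDegree_C_mul_le _ _) hp
      · exact lt_of_le_of_lt natDegree_map_le hp) e3
    rw [sub_eq_zero] at e4
    have e5 : p1.map (mapRingHom (τ : Ω →+* Ω)) = C (C (τ c * d * c⁻¹)) * p1 := by
      rw [hp1, Polynomial.map_mul, ← e4, map_C, coe_mapRingHom, map_C]
      ext m n
      rw [hc1, hc1, hc1, mul_comm p, hc1]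
      show τ c * _ = _
      field_simp
    have e6 : τ c * d * c⁻¹ = 1 := by
      have e7 := congrArg (fun q : (Polynomial Ω)[X] => (q.coeff i).coeff j) e5
      simp only [hc1, hcoe, mul_one] at e7
      rw [coeff_map, coe_mapRingHom, coeff_map, hcoe, map_one] at e7
      exact e7.symm
    rw [e5, e6, C_1, C_1, one_mul]
  have hK : ∀ m n, ∃ a : K, algebraMap K Ω a = (p1.coeff m).coeff n := by
    intro m n
    have := (InfiniteGalois.mem_range_algebraMap_iff_fixed (k := K) ((p1.coeff m).coeff n)).2 (by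
      intro τ
      have e7 := congrArg (fun q : (Polynomial Ω)[X] => (q.coeff m).coeff n) (hfix τ)
      simp only [coeff_map, coe_mapRingHom] at e7
      exact e7)
    exact this
  have hl : p1 ∈ lifts (mapRingHom (algebraMap K Ω)) := by
    rw [lifts_iff_coeff_lifts]
    intro m
    have h3 : p1.coeff m ∈ lifts (algebraMap K Ω) := by
      rw [lifts_iff_coeff_lifts]
      intro n
      exact hK m n
    rw [mem_lifts] at h3
    exact h3
  rw [mem_lifts] at hl
  obtain ⟨p0, hp0'⟩ := hl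
  refine ⟨AdjoinRoot.mk _ p0, ?_⟩
  have e2 : cm ℓ f (incl K K Ω) (AdjoinRoot.mk _ p0) = AdjoinRoot.mk _
      (p0.map (mapRingHom (algebraMap K Ω))) := crMap_mk _ _ p0
  rw [e2, hp0', hsp]

end main

theorem inj (H : Hyps) {ℓ : ℕ} (K Ω : Type) [Field K] [Field Ω] [Algebra K Ω] [IsGalois K Ω]
    (f : K[X]) {ζ : K} (hg : Good ℓ ζ f) : Function.Injective (jm ℓ f (incl K K Ω)) := by
  rw [injective_iff_map_eq_zero]
  intro x hx
  obtain ⟨I, hI, hIx⟩ := exists_cl H hg x
  have h1 := cl_map H hg hIx (incl K K Ω)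
  rw [hx] at h1
  have h2 := (cl_zero_iff H hg h1).1 rfl
  haveI := H.ring ℓ Ω _ _ (hg.up Ω)
  obtain ⟨a, b, ha, hb, hab⟩ := h2
  have hb' : b ∈ Ideal.span {a} * I.map (cm ℓ f (incl K K Ω)) := by
    rw [hab, Ideal.mul_top]
    exact Ideal.mem_span_singleton_self b
  rw [Ideal.mem_span_singleton_mul] at hb'
  obtain ⟨g, hgI, rfl⟩ := hb'
  have hg0 : g ≠ 0 := right_ne_zero_of_mul hb
  have hIg : I.map (cm ℓ f (incl K K Ω)) = Ideal.span {g} := by
    rw [Ideal.mul_top, ← Ideal.span_singleton_mul_span_singleton] at hab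
    exact (Ideal.span_singleton_mul_right_inj ha).1 hab
  obtain ⟨g0, hg0'⟩ := desc H hg g hg0 (by
    intro τ
    have e1 : (cm ℓ f (ak τ)).comp (cm ℓ f (incl K K Ω)) = cm ℓ f (incl K K Ω) := by
      rw [← cm_comp]
      congr 1
      apply AlgHom.ext
      intro z
      exact τ.commutes z
    have e2 := congrArg (Ideal.map (cm ℓ f (ak τ))) hIg
    rw [Ideal.map_map, e1, Ideal.map_span, Set.image_singleton] at e2
    rw [← e2, hIg])
  have h3 : I.map (cm ℓ f (incl K K Ω)) = (Ideal.span {g0}).map (cm ℓ f (incl K K Ω)) := by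
    rw [Ideal.map_span, Set.image_singleton, hg0', hIg]
  have h4 : I = Ideal.span {g0} :=
    le_antisymm (ret_ideal (ret_cm ℓ f) h3.le) (ret_ideal (ret_cm ℓ f) h3.ge)
  have h5 : g0 ≠ 0 := by
    rintro rfl
    apply hI
    rw [h4, Ideal.span_singleton_eq_bot]
  rw [cl_zero_iff H hg hIx]
  haveI := H.ring ℓ K _ _ (hg.up K)
  refine ⟨1, g0, one_ne_zero, h5, ?_⟩
  rw [Ideal.span_singleton_one, Ideal.top_mul, Ideal.mul_top, h4]

end Pool.Agent.H428.V.JB
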