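import Pool.Agent.H428.V.Stab
import Pool.Agent.H428.V.Inj
import Pool.Graph.R_seed8.Y160.SL.Conv
import Pool.Graph.R_seed8.Y160.SQ.All
import Pool.Graph.R_seed8.TH115.TC.Compl

/-!
# Products of superelliptic Jacobians, and the maps of the completions
-/

set_option autoImplicit false
set_option linter.unusedSectionVars false

namespace Pool.Agent.H428.V

open Polynomial IsDedekindDomain

open scoped Classical

open Pool.Agent.TH115.GD (Sep Comp incl rs ak)
open Pool.Agent.Y160.SL (Jac jm ShaTriv IsCoc IsCobOf)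

section jac

variable {L : Type} [Field L] {I : Type}

/-- The product of the Jacobians of the curves `w ^ (q i) = f i (x)` over `L`. -/
noncomputable def jacobians (q : I → ℕ) (f : I → L[X]) : GroupFunctor L where
  pts Ω _ _ _ := ∀ i, Jac (q i) (f i) Ω
  grp _ _ _ _ := inferInstance
  map φ :=
    { toFun := fun P i => jm (q i) (f i) φ (P i)
      map_zero' := funext fun _ => map_zero _
      map_add' := fun _ _ => funext fun _ => map_add _ _ _ }
  map_id _ _ _ _ P := funext fun i => Pool.Agent.Y160.SQ.jm_id (P i)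
  map_comp φ ψ P := funext fun i => (Pool.Agent.Y160.SQ.jm_jm φ ψ (P i)).symm

variable {q : I → ℕ} {f : I → L[X]}

/-- the component of a cochain -/
def cmp (d : (Sep L ≃ₐ[L] Sep L) → (jacobians q f).pts (Sep L)) (i : I) :
    (Sep L ≃ₐ[L] Sep L) → Jac (q i) (f i) (Sep L) := fun σ => d σ i

lemma cmp_coc {d : (Sep L ≃ₐ[L] Sep L) → (jacobians q f).pts (Sep L)}
    (hd : CocB (jacobians q f) d) (i : I) : IsCoc (q i) (f i) (cmp d i) := by
  refine ⟨hd.1.comp fun P => P i, fun σ τ => ?_⟩
  exact congrFun (hd.2 σ τ) i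

lemma cmp_cob {d : (Sep L ≃ₐ[L] Sep L) → (jacobians q f).pts (Sep L)}
    (hd : CobB (jacobians q f) d) (i : I) : ∃ P, IsCobOf (q i) (f i) (cmp d i) P := by
  obtain ⟨Q, hQ⟩ := hd
  exact ⟨Q i, fun σ => congrFun (hQ σ) i⟩

lemma cob_of_cmp {d : (Sep L ≃ₐ[L] Sep L) → (jacobians q f).pts (Sep L)}
    (hd : ∀ i, ∃ P, IsCobOf (q i) (f i) (cmp d i) P) : CobB (jacobians q f) d := by
  choose Q hQ using hd
  exact ⟨Q, fun σ => funext fun i => hQ i σ⟩

lemma cmp_loc {d : (Sep L ≃ₐ[L] Sep L) → (jacobians q f).pts (Sep L)} (E : Type) [Field E]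
    [Algebra L E] (hd : LocB (jacobians q f) E (Sep E) d) (i : I) :
    Pool.Agent.Y160.SL.LocTriv (q i) (f i) E (Sep E) (cmp d i) := by
  obtain ⟨j, P, hP⟩ := hd
  exact ⟨j, P i, fun τ σ h => congrFun (hP τ σ h) i⟩

/-- **the Tate-Shafarevich group of the product** -/
theorem sha_jac {p : ℕ} (A : Type) [CommRing A] [IsDedekindDomain A] [Algebra A L]
    [IsFractionRing A L] (h : ∀ i, ShaTriv p (q i) A (f i))
    {d : (Sep L ≃ₐ[L] Sep L) → (jacobians q f).pts (Sep L)} (hd : CocB (jacobians q f) d)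
    (h1 : ∀ v : HeightOneSpectrum A, LocB (jacobians q f) (Comp A L v) (Sep (Comp A L v)) d)
    {m : ℕ} (hm : CobB (jacobians q f) (p ^ m • d)) : CobB (jacobians q f) d := by
  refine cob_of_cmp fun i => ?_
  refine h i (cmp d i) (cmp_coc hd i) ?_ (fun v => cmp_loc (Comp A L v) (h1 v) i)
  obtain ⟨P, hP⟩ := cmp_cob hm i
  exact ⟨m, P, hP⟩

/-- **the rational points of the product** -/
theorem pts_jac {p : ℕ} {ζ : I → L} (hg : ∀ i, Pool.Agent.Y160.SQ.Good (q i) (ζ i) (f i))
    (h : ∀ i, ∀ P : Jac (q i) (f i) L, ∃! Q : Jac (q i) (f i) L, p • Q = P) :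
    (∀ Q : (jacobians q f).pts (Sep L),
      (∀ σ : Sep L ≃ₐ[L] Sep L, (jacobians q f).map σ.toAlgHom Q = Q) → p • Q = 0 → Q = 0) ∧
    ∀ Q : (jacobians q f).pts (Sep L),
      (∀ σ : Sep L ≃ₐ[L] Sep L, (jacobians q f).map σ.toAlgHom Q = Q) →
      ∃ R : (jacobians q f).pts (Sep L),
        (∀ σ : Sep L ≃ₐ[L] Sep L, (jacobians q f).map σ.toAlgHom R = R) ∧ p • R = Q := by
  have key : ∀ Q : (jacobians q f).pts (Sep L),
      (∀ σ : Sep L ≃ₐ[L] Sep L, (jacobians q f).map σ.toAlgHom Q = Q) →
      ∀ i, ∃ y : Jac (q i) (f i) L, jm (q i) (f i) (incl L L (Sep L)) y = Q i := by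
    intro Q hQ i
    exact Pool.Agent.Y160.SQ.fixed_class (E := L) Pool.Agent.Y160.SQ.hyps (hg i) (Q i) fun σ =>
      congrFun (hQ σ) i
  have hinj : ∀ i, Function.Injective (jm (q i) (f i) (incl L L (Sep L))) := fun i =>
    JB.inj Pool.Agent.Y160.SQ.hyps L (Sep L) (f i) (hg i)
  constructor
  · intro Q hQ h2
    funext i
    obtain ⟨y, hy⟩ := key Q hQ i
    have h3 : p • Q i = 0 := congrFun h2 i
    have h4 : y = 0 := by
      obtain ⟨z, -, hz⟩ := h i 0
      have h5 : p • y = 0 := by
        apply hinj i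
        rw [map_nsmul, hy, h3, map_zero]
      rw [hz y h5, ← hz 0 (smul_zero _)]
    show Q i = 0
    rw [← hy, h4, map_zero]
  · intro Q hQ
    choose y hy using key Q hQ
    choose z hz using fun i => (h i (y i)).exists
    refine ⟨fun i => jm (q i) (f i) (incl L L (Sep L)) (z i), fun σ => ?_, ?_⟩
    · funext i
      show jm (q i) (f i) σ.toAlgHom (jm (q i) (f i) (incl L L (Sep L)) (z i)) = _
      refine (Pool.Agent.Y160.SQ.jm_jm _ _ (z i)).trans ?_
      refine congrArg (fun φ : L →ₐ[L] Sep L => jm (q i) (f i) φ (z i)) ?_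
      exact AlgHom.ext fun x => σ.commutes x
    · funext i
      show p • jm (q i) (f i) (incl L L (Sep L)) (z i) = _
      rw [← map_nsmul, hz, hy]

end jac

section places

variable {K S L A : Type} [Field K] [CommRing S] [IsDedekindDomain S] [Algebra S K]
  [IsFractionRing S K] [Field L] [CommRing A] [IsDedekindDomain A] [Algebra A L]
  [IsFractionRing A L] [Algebra K L] [Algebra S A] [Algebra S L] [IsScalarTower S K L]
  [IsScalarTower S A L] [Algebra.IsIntegral S A]

/-- the place below -/
noncomputable def below (w : HeightOneSpectrum A) : HeightOneSpectrum S where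
  asIdeal := w.asIdeal.comap (algebraMap S A)
  isPrime := inferInstance
  ne_bot := by
    obtain ⟨x, hx, hx0⟩ := (Submodule.ne_bot_iff _).1 w.ne_bot
    exact Ideal.comap_ne_bot_of_integral_mem hx0 hx (Algebra.IsIntegral.isIntegral x)

lemma val_int (w : HeightOneSpectrum A) (x : S) :
    w.valuation L (algebraMap K L (algebraMap S K x)) ≤ 1 := by
  rw [← IsScalarTower.algebraMap_apply S K L, IsScalarTower.algebraMap_apply S A L]
  exact w.valuation_le_one _

lemma val_unit (w : HeightOneSpectrum A) {x : S} (hx : x ∉ (below (S := S) w).asIdeal) :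
    w.valuation L (algebraMap K L (algebraMap S K x)) = 1 := by
  rw [← IsScalarTower.algebraMap_apply S K L, IsScalarTower.algebraMap_apply S A L]
  refine le_antisymm (w.valuation_le_one _) ?_
  by_contra h
  rw [not_le] at h
  exact hx (Ideal.mem_comap.2 ((w.valuation_lt_one_iff_mem _).1 h))

lemma val_lt (w : HeightOneSpectrum A) {x : S} (hx : x ∈ (below (S := S) w).asIdeal) :
    w.valuation L (algebraMap K L (algebraMap S K x)) < 1 := by
  rw [← IsScalarTower.algebraMap_apply S K L, IsScalarTower.algebraMap_apply S A L]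
  exact (w.valuation_lt_one_iff_mem _).2 (Ideal.mem_comap.1 hx)

variable (K) in
/-- The map of the completions. -/
theorem exists_comp (w : HeightOneSpectrum A) :
    ∃ v : HeightOneSpectrum S, Nonempty (Comp S K v →ₐ[K] Comp A L w) := by
  refine ⟨below w, ?_⟩
  have key : ∀ x : K, (below (S := S) w).valuation K x ≤ 1 → ∃ (n : S) (d : S),
      d ∉ (below (S := S) w).asIdeal ∧ x * algebraMap S K d = algebraMap S K n := by
    intro x hx
    obtain ⟨n, d, h⟩ := (below (S := S) w).exists_primeCompl_mul_eq_of_integer x hx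
    exact ⟨n, d, d.2, h⟩
  have h1 : ∀ x : K, (below (S := S) w).valuation K x ≤ 1 →
      w.valuation L (algebraMap K L x) ≤ 1 := by
    intro x hx
    obtain ⟨n, d, hd, h⟩ := key x hx
    have h2 := congrArg (fun z => w.valuation L (algebraMap K L z)) h
    simp only [map_mul] at h2
    rw [val_unit w hd, mul_one] at h2
    rw [h2]
    exact val_int w n
  have h2 : ∀ x : K, (below (S := S) w).valuation K x < 1 →
      w.valuation L (algebraMap K L x) < 1 := by
    intro x hx
    obtain ⟨n, d, hd, h⟩ := key x hx.le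
    have h3 := congrArg (fun z => w.valuation L (algebraMap K L z)) h
    simp only [map_mul] at h3
    rw [val_unit w hd, mul_one] at h3
    rw [h3]
    apply val_lt
    have h4 := congrArg (fun z => (below (S := S) w).valuation K z) h
    simp only [map_mul] at h4
    rw [← (below (S := S) w).valuation_lt_one_iff_mem (K := K), ← h4]
    exact mul_lt_one_of_nonneg_of_lt_one_left zero_le hx ((below (S := S) w).valuation_le_one d)
  obtain ⟨j, hj, -⟩ := Pool.Agent.TH115.GD.exists_compl_map (below (S := S) w) w (algebraMap K L) h1 h2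
  exact ⟨{ j with
    commutes' := fun x => hj x }⟩

end places

end Pool.Agent.H428.V
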