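import Pool.Agent.H428.V.Def

/-!
# Restriction to an extension field
-/

set_option autoImplicit false
set_option linter.unusedSectionVars false

namespace Pool.Agent.H428.V

open IsDedekindDomain

open scoped Classical

open Pool.Agent.TH115.GD (Sep Comp)

/-- Two embeddings of a normal extension differ by an automorphism. -/
lemma aut_of_two {F N Ω : Type} [Field F] [Field N] [Field Ω] [Algebra F N] [Algebra F Ω]
    [Normal F N] (φ ψ : N →ₐ[F] Ω) : ∃ g : N ≃ₐ[F] N, ∀ x, ψ x = φ (g x) := by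
  letI : Algebra N Ω := φ.toRingHom.toAlgebra
  haveI : IsScalarTower F N Ω := IsScalarTower.of_algebraMap_eq fun x => (φ.commutes x).symm
  refine ⟨Normal.algHomEquivAut F Ω N ψ, fun x => ?_⟩
  have h := (Normal.algHomEquivAut F Ω N).symm_apply_apply ψ
  exact (DFunLike.congr_fun h x).symm

section functor

variable {K : Type} [Field K] (A : GroupFunctor K)

lemma map_map {L L' L'' : Type} [Field L] [IsSepClosed L] [Algebra K L] [Field L'] [IsSepClosed L']
    [Algebra K L'] [Field L''] [IsSepClosed L''] [Algebra K L''] (φ : L →ₐ[K] L')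
    (ψ : L' →ₐ[K] L'') (χ : L →ₐ[K] L'') (h : ∀ x, ψ (φ x) = χ x) (P : A.pts L) :
    A.map ψ (A.map φ P) = A.map χ P := by
  rw [← A.map_comp]
  congr 1
  congr 1
  ext x
  exact h x

lemma map_id' {L : Type} [Field L] [IsSepClosed L] [Algebra K L] (φ : L →ₐ[K] L)
    (h : ∀ x, φ x = x) (P : A.pts L) : A.map φ P = P := by
  have h1 : φ = AlgHom.id K L := by
    ext x
    exact h x
  rw [h1, A.map_id]

/-- the action of the Galois group -/
noncomputable def act (σ : Gal K) : A.pts (Sep K) →+ A.pts (Sep K) := A.map σ.toAlgHom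

lemma act_one (P : A.pts (Sep K)) : act A 1 P = P := map_id' A _ (fun _ => rfl) P

lemma act_mul (σ τ : Gal K) (P : A.pts (Sep K)) : act A (σ * τ) P = act A σ (act A τ P) :=
  (map_map A _ _ _ (fun _ => rfl) P).symm

/-- Local triviality does not depend on the embedding. -/
lemma locTriv_conj {E : Type} [Field E] [Algebra K E] {c : Cochain A} (hc : IsCocycle c)
    (h : LocTriv E c) (ι : Sep K →ₐ[K] Sep E) :
    ∃ P : A.pts (Sep E), ∀ (τ : Gal E) (σ : Gal K), (∀ x, τ (ι x) = ι (σ x)) →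
      A.map ι (c σ) = A.map (τ.toAlgHom.restrictScalars K) P - P := by
  obtain ⟨ι₀, P₀, h₀⟩ := h
  obtain ⟨g, hg⟩ := aut_of_two ι₀ ι
  refine ⟨P₀ + A.map ι₀ (c g), fun τ σ hτ => ?_⟩
  have h1 : ∀ x, τ (ι₀ x) = ι₀ ((g * σ * g⁻¹) x) := by
    intro x
    have h2 := hτ (g⁻¹ x)
    rw [hg, hg] at h2
    have h3 : g (g⁻¹ x) = x := by
      rw [← AlgEquiv.mul_apply, mul_inv_cancel, AlgEquiv.one_apply]
    rw [h3] at h2
    rw [h2]
    rfl
  have h2 := h₀ τ _ h1
  have h3 : c (g * σ * g⁻¹ * g) = c (g * σ * g⁻¹) + A.map (g * σ * g⁻¹).toAlgHom (c g) := hc.2 _ _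
  have h4 : g * σ * g⁻¹ * g = g * σ := by group
  have h5 : c (g * σ) = c g + A.map g.toAlgHom (c σ) := hc.2 _ _
  rw [h4, h5] at h3
  have h6 : A.map g.toAlgHom (c σ) =
      c (g * σ * g⁻¹) + A.map (g * σ * g⁻¹).toAlgHom (c g) - c g := by
    rw [← h3]
    abel
  have h7 : A.map ι (c σ) = A.map ι₀ (A.map g.toAlgHom (c σ)) :=
    (map_map A g.toAlgHom ι₀ ι (fun x => (hg x).symm) (c σ)).symm
  rw [h7, h6, map_sub, map_add, h2, map_add]
  have h8 : A.map ι₀ (A.map (g * σ * g⁻¹).toAlgHom (c g)) =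
      A.map (τ.toAlgHom.restrictScalars K) (A.map ι₀ (c g)) := by
    rw [map_map A (g * σ * g⁻¹).toAlgHom ι₀ ((τ.toAlgHom.restrictScalars K).comp ι₀)
        (fun x => (h1 x).symm),
      map_map A ι₀ (τ.toAlgHom.restrictScalars K) ((τ.toAlgHom.restrictScalars K).comp ι₀)
        (fun x => rfl)]
  rw [h8]
  abel

end functor

section closure

variable {K L : Type} [Field K] [Field L] [Algebra K L] {Ω : Type} [Field Ω] [Algebra K Ω]
  [Algebra L Ω] [IsScalarTower K L Ω] (e : Ω ≃ₐ[K] Sep K)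

/-- conjugation with `e` -/
noncomputable def cj (σ : Ω ≃ₐ[L] Ω) : Gal K :=
  (e.symm.trans (σ.restrictScalars K)).trans e

lemma cj_apply (σ : Ω ≃ₐ[L] Ω) (x : Sep K) : cj e σ x = e (σ (e.symm x)) := rfl

lemma cj_e (σ : Ω ≃ₐ[L] Ω) (x : Ω) : cj e σ (e x) = e (σ x) := by
  rw [cj_apply, AlgEquiv.symm_apply_apply]

lemma cj_mul (σ τ : Ω ≃ₐ[L] Ω) : cj e (σ * τ) = cj e σ * cj e τ := by
  refine AlgEquiv.ext fun x => ?_
  show e (σ (τ (e.symm x))) = e (σ (e.symm (e (τ (e.symm x)))))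
  rw [AlgEquiv.symm_apply_apply]

lemma cj_one : cj e (1 : Ω ≃ₐ[L] Ω) = 1 := by
  refine AlgEquiv.ext fun x => ?_
  show e (e.symm x) = x
  rw [AlgEquiv.apply_symm_apply]

/-- conjugation as a homomorphism -/
noncomputable def cjH : (Ω ≃ₐ[L] Ω) →* Gal K where
  toFun := cj e
  map_one' := cj_one e
  map_mul' := cj_mul e

variable [Algebra.IsAlgebraic L Ω]

lemma cj_cont : Continuous (cjH (L := L) e) := by
  apply continuous_of_continuousAt_one
  intro U hU
  rw [map_one] at hU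
  obtain ⟨N, hN, hNU⟩ := (krullTopology_mem_nhds_one_iff K (Sep K) _).1 hU
  refine (krullTopology_mem_nhds_one_iff L Ω _).2 ?_
  let b := Module.finBasis K N
  let s : Finset Ω := Finset.univ.image fun i => e.symm (b i : Sep K)
  have hfd : FiniteDimensional L (IntermediateField.adjoin L (s : Set Ω)) :=
    IntermediateField.finiteDimensional_adjoin fun x _ => Algebra.IsIntegral.isIntegral x
  refine ⟨IntermediateField.adjoin L (s : Set Ω), hfd, fun σ hσ => ?_⟩
  apply hNU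
  have hσ' : ∀ y ∈ IntermediateField.adjoin L (s : Set Ω), σ y = y := by
    have h1 : σ ∈ (IntermediateField.adjoin L (s : Set Ω)).fixingSubgroup := hσ
    exact (IntermediateField.mem_fixingSubgroup_iff _ _).1 h1
  show cj e σ ∈ N.fixingSubgroup
  rw [IntermediateField.mem_fixingSubgroup_iff]
  intro x hx
  have h3 : ((∑ i, b.repr ⟨x, hx⟩ i • b i : N) : Sep K) = x :=
    congrArg (Subtype.val) (b.sum_repr ⟨x, hx⟩)
  rw [← h3]
  have h4 : ∀ i, cj e σ (b i : Sep K) = b i := by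
    intro i
    rw [cj_apply, hσ' _ (IntermediateField.subset_adjoin L _
      (Finset.mem_coe.2 (Finset.mem_image_of_mem _ (Finset.mem_univ i)))),
      AlgEquiv.apply_symm_apply]
  have h5 : ∀ (g : Gal K) (q : K) (x : Sep K), g (q • x) = q • g x := fun g q x => by
    rw [Algebra.smul_def, map_mul, AlgEquiv.commutes, Algebra.smul_def]
  simp only [IntermediateField.coe_sum, IntermediateField.coe_smul, map_sum, h5, h4]

lemma exists_cj (g : Gal K) (hg : ∀ x : L, g (e (algebraMap L Ω x)) = e (algebraMap L Ω x)) :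
    ∃ σ : Ω ≃ₐ[L] Ω, cj e σ = g := by
  refine ⟨{ ((e : Ω ≃+* Sep K).trans ((g : Sep K ≃+* Sep K).trans (e.symm : Sep K ≃+* Ω))) with
    commutes' := fun x => ?_ }, ?_⟩
  · show e.symm (g (e (algebraMap L Ω x))) = _
    rw [hg, AlgEquiv.symm_apply_apply]
  · refine AlgEquiv.ext fun x => ?_
    show e (e.symm (g (e (e.symm x)))) = g x
    rw [AlgEquiv.apply_symm_apply, AlgEquiv.apply_symm_apply]

lemma cj_fix (σ : Ω ≃ₐ[L] Ω) (x : L) : cj e σ (e (algebraMap L Ω x)) = e (algebraMap L Ω x) := by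
  rw [cj_e, AlgEquiv.commutes]

end closure

section res

variable {K L : Type} [Field K] [Field L] [Algebra K L] (A : GroupFunctor K) {Ω : Type} [Field Ω]
  [IsSepClosed Ω] [Algebra K Ω] [Algebra L Ω] [IsScalarTower K L Ω] (e : Ω ≃ₐ[K] Sep K)

/-- the restriction of a cochain -/
noncomputable def res (c : Cochain A) (σ : Ω ≃ₐ[L] Ω) : A.pts Ω :=
  A.map e.symm.toAlgHom (c (cj e σ))

lemma res_mul {c : Cochain A} (hc : IsCocycle c) (σ τ : Ω ≃ₐ[L] Ω) :
    res A e c (σ * τ) = res A e c σ + A.map (σ.toAlgHom.restrictScalars K) (res A e c τ) := by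
  unfold res
  rw [cj_mul, hc.2, map_add]
  congr 1
  rw [map_map A (cj e σ).toAlgHom e.symm.toAlgHom
      ((σ.toAlgHom.restrictScalars K).comp e.symm.toAlgHom),
    map_map A e.symm.toAlgHom (σ.toAlgHom.restrictScalars K)
      ((σ.toAlgHom.restrictScalars K).comp e.symm.toAlgHom)]
  · intro x
    rfl
  · intro x
    show e.symm (e (σ (e.symm x))) = σ (e.symm x)
    rw [AlgEquiv.symm_apply_apply]

lemma res_lc [Algebra.IsAlgebraic L Ω] {c : Cochain A} (hc : IsCocycle c) :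
    IsLocallyConstant (fun σ : Ω ≃ₐ[L] Ω => res A e c σ) := by
  have h1 := (hc.1.comp_continuous (cj_cont (L := L) e)).comp (A.map e.symm.toAlgHom)
  exact h1

lemma up_map (P : A.pts Ω) (σ : Ω ≃ₐ[L] Ω) :
    A.map (cj e σ).toAlgHom (A.map e.toAlgHom P) =
      A.map e.toAlgHom (A.map (σ.toAlgHom.restrictScalars K) P) := by
  rw [map_map A e.toAlgHom (cj e σ).toAlgHom (e.toAlgHom.comp (σ.toAlgHom.restrictScalars K)),
    map_map A (σ.toAlgHom.restrictScalars K) e.toAlgHom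
      (e.toAlgHom.comp (σ.toAlgHom.restrictScalars K))]
  · intro x
    rfl
  · intro x
    exact cj_e e σ x

lemma up_dn (P : A.pts (Sep K)) : A.map e.toAlgHom (A.map e.symm.toAlgHom P) = P := by
  rw [map_map A e.symm.toAlgHom e.toAlgHom (AlgHom.id K (Sep K)), A.map_id]
  intro x
  exact e.apply_symm_apply x

lemma dn_up (P : A.pts Ω) : A.map e.symm.toAlgHom (A.map e.toAlgHom P) = P := by
  rw [map_map A e.toAlgHom e.symm.toAlgHom (AlgHom.id K Ω), A.map_id]
  intro x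
  exact e.symm_apply_apply x

lemma dn_map (P : A.pts (Sep K)) (σ : Ω ≃ₐ[L] Ω) :
    A.map (σ.toAlgHom.restrictScalars K) (A.map e.symm.toAlgHom P) =
      A.map e.symm.toAlgHom (A.map (cj e σ).toAlgHom P) := by
  rw [map_map A e.symm.toAlgHom (σ.toAlgHom.restrictScalars K)
      ((σ.toAlgHom.restrictScalars K).comp e.symm.toAlgHom),
    map_map A (cj e σ).toAlgHom e.symm.toAlgHom
      ((σ.toAlgHom.restrictScalars K).comp e.symm.toAlgHom)]
  · intro x
    show e.symm (e (σ (e.symm x))) = σ (e.symm x)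
    rw [AlgEquiv.symm_apply_apply]
  · intro x
    rfl

/-- the restriction is locally trivial -/
lemma res_loc {E : Type} [Field E] [Algebra K E] {c : Cochain A} (hc : IsCocycle c)
    (h : LocTriv E c) {Fv : Type} [Field Fv] [Algebra K Fv] (θ : E →ₐ[K] Fv) {Ω' : Type} [Field Ω']
    [IsSepClosed Ω'] [Algebra K Ω'] [Algebra Fv Ω'] [IsScalarTower K Fv Ω'] (ι' : Ω →ₐ[K] Ω') :
    ∃ P : A.pts Ω', ∀ (τ : Ω' ≃ₐ[Fv] Ω') (σ : Ω ≃ₐ[L] Ω), (∀ x, τ (ι' x) = ι' (σ x)) →
      A.map ι' (res A e c σ) = A.map (τ.toAlgHom.restrictScalars K) P - P := by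
  let i1 : Algebra E Ω' := ((algebraMap Fv Ω').comp (θ : E →+* Fv)).toAlgebra
  have i2 : IsScalarTower K E Ω' := IsScalarTower.of_algebraMap_eq fun x => by
    show _ = algebraMap Fv Ω' (θ (algebraMap K E x))
    rw [θ.commutes, ← IsScalarTower.algebraMap_apply]
  let θ₀ : Sep E →ₐ[E] Ω' := IsSepClosed.lift
  have hθ' : ∀ y : E, θ₀ (algebraMap E _ y) = algebraMap Fv _ (θ y) := fun y => θ₀.commutes y
  let θ' : Sep E →ₐ[K] Ω' := θ₀.restrictScalars K
  obtain ⟨ι₀, P₀, hP₀⟩ := id h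
  obtain ⟨g, hg⟩ := aut_of_two (θ'.comp ι₀) (ι'.comp e.symm.toAlgHom)
  let ι₁ : Sep K →ₐ[K] Sep E := ι₀.comp g.toAlgHom
  have hι : ∀ x, ι' (e.symm x) = θ' (ι₁ x) := hg
  obtain ⟨P, hP⟩ := locTriv_conj A hc h ι₁
  refine ⟨A.map θ' P, fun τ σ hτ => ?_⟩
  obtain ⟨τ₀, hτ₀⟩ := aut_of_two θ₀
    ({ ((τ : Ω' →+* Ω').comp (θ₀ : Sep E →+* Ω')) with
      commutes' := by
        intro y
        change τ (θ₀ (algebraMap E _ y)) = algebraMap Fv Ω' (θ y)
        rw [hθ', AlgEquiv.commutes] } : Sep E →ₐ[E] Ω')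
  have hτ2 : ∀ x, τ (θ' x) = θ' (τ₀ x) := hτ₀
  have hcomp : ∀ x, τ₀ (ι₁ x) = ι₁ (cj e σ x) := by
    intro x
    apply (θ' : Sep E →+* Ω').injective
    change θ' (τ₀ (ι₁ x)) = θ' (ι₁ (cj e σ x))
    rw [← hτ2, ← hι, hτ, ← hι, cj_apply, AlgEquiv.symm_apply_apply]
  have h1 := hP τ₀ (cj e σ) hcomp
  have h2 := congrArg (A.map θ') h1
  rw [map_sub] at h2
  have h3 : A.map ι' (res A e c σ) = A.map θ' (A.map ι₁ (c (cj e σ))) := by
    unfold res
    rw [map_map A e.symm.toAlgHom ι' (ι'.comp e.symm.toAlgHom) (fun x => rfl),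
      map_map A ι₁ θ' (ι'.comp e.symm.toAlgHom) (fun x => (hι x).symm)]
  rw [h3, h2]
  congr 1
  rw [map_map A (τ₀.toAlgHom.restrictScalars K) θ'
    ((τ.toAlgHom.restrictScalars K).comp θ') (fun x => (hτ2 x).symm),
    map_map A θ' (τ.toAlgHom.restrictScalars K)
    ((τ.toAlgHom.restrictScalars K).comp θ') (fun x => rfl)]

end res

end Pool.Agent.H428.V
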