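import Pool.Agent.H428.V.Tr

/-!
# The stabilizer of a Galois extension, and the transfer
-/

set_option autoImplicit false
set_option linter.unusedSectionVars false

namespace Pool.Agent.H428.V

open IsDedekindDomain

open scoped Classical

open Pool.Agent.TH115.GD (Sep Comp)

open Pool.Agent.H428.F (CobOn Coc Cob cob_of_cobOn exists_norm cob_coprime)

section

variable {K L : Type} [Field K] [Field L] [Algebra K L] [FiniteDimensional K L]
  (lam : L →ₐ[K] Sep K)

lemma stab_eq : stab lam = lam.fieldRange.fixingSubgroup := by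
  ext g
  rw [mem_stab, IntermediateField.mem_fixingSubgroup_iff]
  constructor
  · rintro h x ⟨y, rfl⟩
    exact h y
  · intro h x
    exact h _ ⟨x, rfl⟩

lemma stab_index : (stab lam).index = Module.finrank K L := by
  rw [stab_eq, ← IntermediateField.finrank_eq_fixingSubgroup_index]
  exact (LinearEquiv.finrank_eq (AlgEquiv.ofInjectiveField lam).toLinearEquiv).symm

lemma stab_fin : (stab lam).FiniteIndex := by
  refine ⟨?_⟩
  rw [stab_index]
  exact Module.finrank_pos.ne'

lemma stab_normal [Normal K L] : (stab lam).Normal := by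
  let i1 : Algebra L (Sep K) := (lam : L →+* Sep K).toAlgebra
  have i2 : IsScalarTower K L (Sep K) := IsScalarTower.of_algebraMap_eq fun x =>
    (lam.commutes x).symm
  have h1 : ∀ (g : Gal K) (x : L), g (lam x) = lam (AlgEquiv.restrictNormal g L x) := fun g x =>
    (AlgEquiv.restrictNormal_commutes g L x).symm
  refine ⟨fun h hh g x => ?_⟩
  show g (h (g⁻¹ (lam x))) = lam x
  rw [h1 g⁻¹ x, hh, ← h1 g⁻¹ x, ← AlgEquiv.mul_apply, mul_inv_cancel, AlgEquiv.one_apply]

end

section grp

variable {G X : Type} [Group G] [AddCommGroup X] (a : G → X →+ X)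
  (ha1 : ∀ x, a 1 x = x) (ham : ∀ g h x, a (g * h) x = a g (a h x))
  (H : Subgroup G) [hn : H.Normal] [hfi : H.FiniteIndex]

include ha1 ham in
/-- If `c` is a coboundary on `H`, multiplication by `d` is bijective on the invariants of `H` and
`[G : H] = d m'`, then `m' c` is a coboundary. -/
theorem cob_part {c : G → X} (hc : Coc a c) (hH : CobOn a H c) {d m' : ℕ} (hd : H.index = d * m')
    (hu1 : ∀ x : X, (∀ h ∈ H, a h x = x) → d • x = 0 → x = 0)
    (hu2 : ∀ x : X, (∀ h ∈ H, a h x = x) → ∃ y : X, (∀ h ∈ H, a h y = y) ∧ d • y = x) :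
    Cob a (m' • c) := by
  obtain ⟨R, hR⟩ := hH
  let b : G → X := fun g => c g - (a g R - R)
  have hb : ∀ g h, b (g * h) = b g + a g (b h) := by
    intro g h
    show c (g * h) - (a (g * h) R - R) = c g - (a g R - R) + a g (c h - (a h R - R))
    rw [hc, ham, map_sub, map_sub]
    abel
  have hbH : ∀ h ∈ H, b h = 0 := by
    intro h hh
    show c h - (a h R - R) = 0
    rw [hR h hh, sub_self]
  have hr : ∀ g, ∀ h ∈ H, b (g * h) = b g := by
    intro g h hh
    rw [hb, hbH h hh, map_zero, add_zero]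
  have hinv : ∀ g, ∀ h ∈ H, a h (b g) = b g := by
    intro g h hh
    have h1 : b (h * g) = a h (b g) := by rw [hb, hbH h hh, zero_add]
    have h2 : h * g = g * (g⁻¹ * h * g) := by group
    have h3 : g⁻¹ * h * g ∈ H := by
      have := hn.conj_mem h hh g⁻¹
      rwa [inv_inv] at this
    rw [← h1, h2, hr g _ h3]
  let D : G ⧸ H → X := Quotient.lift b (by
    intro x y hxy
    have h1 : x⁻¹ * y ∈ H := QuotientGroup.leftRel_apply.1 hxy
    have h2 : y = x * (x⁻¹ * y) := by group
    rw [h2, hr x _ h1])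
  let _ : Fintype (G ⧸ H) := Fintype.ofFinite _
  have hcard : Fintype.card (G ⧸ H) = H.index := by
    rw [Subgroup.index, Nat.card_eq_fintype_card]
  set S : X := ∑ q : G ⧸ H, D q with hS
  have hSinv : ∀ h ∈ H, a h S = S := by
    intro h hh
    rw [hS, map_sum]
    refine Finset.sum_congr rfl fun q _ => ?_
    induction q using QuotientGroup.induction_on with
    | H g => exact hinv g h hh
  have hkey : ∀ g, H.index • b g = S - a g S := by
    intro g
    have h1 : S = ∑ q : G ⧸ H, D ((g : G ⧸ H) * q) :=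
      (Equiv.sum_comp (Equiv.mulLeft (g : G ⧸ H)) D).symm
    have h2 : ∀ q : G ⧸ H, D ((g : G ⧸ H) * q) = b g + a g (D q) := by
      intro q
      induction q using QuotientGroup.induction_on with
      | H x => exact hb g x
    have h3 : S = H.index • b g + a g S := by
      conv_lhs => rw [h1]
      rw [Finset.sum_congr rfl fun q _ => h2 q, Finset.sum_add_distrib, Finset.sum_const,
        Finset.card_univ, hcard, hS, map_sum]
    rw [eq_sub_iff_add_eq]
    exact h3.symm
  obtain ⟨S', hS', hSS⟩ := hu2 S hSinv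
  refine ⟨m' • R - S', fun g => ?_⟩
  have h1 : m' • b g - (S' - a g S') = 0 := by
    apply hu1
    · intro h hh
      have h3 : a h (a g S') = a g S' := by
        have h4 : h * g = g * (g⁻¹ * h * g) := by group
        have h5 : g⁻¹ * h * g ∈ H := by
          have := hn.conj_mem h hh g⁻¹
          rwa [inv_inv] at this
        rw [← ham, h4, ham, hS' _ h5]
      rw [map_sub (a h) (m' • b g) (S' - a g S'), map_nsmul, map_sub (a h) S' (a g S'),
        hinv g h hh, hS' h hh, h3]
    · rw [smul_sub, smul_smul, ← hd, hkey, smul_sub, ← map_nsmul, hSS, sub_self]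
  have hcd : c g = b g + (a g R - R) := by
    show c g = c g - (a g R - R) + (a g R - R)
    abel
  show m' • c g = _
  rw [hcd, smul_add, sub_eq_zero.1 h1, map_sub, map_nsmul, smul_sub]
  abel

end grp

section main

variable {K L : Type} [Field K] [Field L] [Algebra K L] [FiniteDimensional K L] [Normal K L]
  {B : GroupFunctor L} {Ω : Type} [Field Ω] [IsSepClosed Ω] [Algebra L Ω] [Algebra K Ω]
  [IsScalarTower K L Ω] [Algebra.IsAlgebraic L Ω] {A : GroupFunctor K} {n : ℕ} (N : Nat2 A B n)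
  (e : Ω ≃ₐ[K] Sep K)

lemma act_coc {c : Cochain A} (hc : IsCocycle c) : Coc (act A) c := hc.2

lemma cob_iff' {c : Cochain A} : IsCoboundary c ↔ Cob (act A) c := Iff.rfl

/-- If `push c` is a coboundary, then `n [L : K] c` is a coboundary. -/
theorem kill {c : Cochain A} (hc : IsCocycle c) (h : CobB B (push N e c)) :
    IsCoboundary ((n * Module.finrank K L) • c) := by
  have h1 := cobOn_of_push N e h
  have _ := stab_fin (emb L e)
  have _ := stab_normal (emb L e)
  have h2 := (cob_of_cobOn (act A) (act_one A) (act_mul A) (stab (emb L e))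
    ((act_coc hc).nsmul (act A) n) h1).1
  rw [stab_index, smul_smul, mul_comm] at h2
  exact h2

/-- If `n` is prime to `p` and multiplication by `p` bijective on the invariants of `B`,
then `c` is a coboundary if `p ^ m c` is and `push c` is. -/
theorem kill_cop {p : ℕ} (hp : p.Prime) {c : Cochain A} (hc : IsCocycle c)
    (h : CobB B (push N e c)) (hn : Nat.Coprime p n)
    (h1 : ∀ Q : B.pts Ω, (∀ σ : Ω ≃ₐ[L] Ω, B.map σ.toAlgHom Q = Q) → p • Q = 0 → Q = 0)
    (h2 : ∀ Q : B.pts Ω, (∀ σ : Ω ≃ₐ[L] Ω, B.map σ.toAlgHom Q = Q) →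
      ∃ R : B.pts Ω, (∀ σ : Ω ≃ₐ[L] Ω, B.map σ.toAlgHom R = R) ∧ p • R = Q)
    {m : ℕ} (hm : IsCoboundary (p ^ m • c)) : IsCoboundary c := by
  have h3 := cobOn_of_push N e h
  have _ := stab_fin (emb L e)
  have _ := stab_normal (emb L e)
  obtain ⟨h4, h5⟩ := fixed_p N e h1 h2 hn
  have h6 : ∀ k : ℕ, ∀ x : A.pts (Sep K), (∀ h ∈ stab (emb L e), act A h x = x) →
      p ^ k • x = 0 → x = 0 := by
    intro k
    induction k with
    | zero =>
      intro x _ hx
      rwa [pow_zero, one_smul] at hx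
    | succ k ih =>
      intro x hx hx2
      apply h4 x hx
      apply ih
      · intro h hh
        rw [map_nsmul, hx h hh]
      · rw [smul_smul, ← pow_succ]
        exact hx2
  have h7 : ∀ k : ℕ, ∀ x : A.pts (Sep K), (∀ h ∈ stab (emb L e), act A h x = x) →
      ∃ y : A.pts (Sep K), (∀ h ∈ stab (emb L e), act A h y = y) ∧ p ^ k • y = x := by
    intro k
    induction k with
    | zero =>
      intro x hx
      exact ⟨x, hx, by rw [pow_zero, one_smul]⟩
    | succ k ih =>
      intro x hx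
      obtain ⟨y, hy, hy2⟩ := ih x hx
      obtain ⟨z, hz, hz2⟩ := h5 y hy
      exact ⟨z, hz, by rw [pow_succ, mul_smul, hz2, hy2]⟩
  obtain ⟨b, m', hm', hb⟩ := Nat.exists_eq_pow_mul_and_not_dvd
    (Module.finrank_pos (R := K) (M := L)).ne' p hp.ne_one
  have h8 := cob_part (act A) (act_one A) (act_mul A) (stab (emb L e))
    ((act_coc hc).nsmul (act A) n) h3 (d := p ^ b) (m' := m') (by rw [stab_index, hb])
    (h6 b) (h7 b)
  rw [smul_smul] at h8
  have h9 : Nat.Coprime (p ^ m) (m' * n) :=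
    Nat.Coprime.pow_left m (Nat.Coprime.mul_right ((Nat.Prime.coprime_iff_not_dvd hp).2 hm') hn)
  exact cob_coprime (act A) h9 hm h8

include N e in
/-- rational points, up to an index -/
theorem pts_upTo {p : ℕ}
    (h2 : ∀ Q : B.pts Ω, (∀ σ : Ω ≃ₐ[L] Ω, B.map σ.toAlgHom Q = Q) →
      ∃ R : B.pts Ω, (∀ σ : Ω ≃ₐ[L] Ω, B.map σ.toAlgHom R = R) ∧ p • R = Q)
    (P : A.pts (Sep K)) (hP : P ∈ RatPts A) (k : ℕ) :
    ∃ Q ∈ RatPts A, p ^ k • Q = (n * Module.finrank K L) • P := by
  have _ := stab_fin (emb L e)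
  have _ := stab_normal (emb L e)
  have h3 : ∀ k : ℕ, ∀ Q : B.pts Ω, (∀ σ : Ω ≃ₐ[L] Ω, B.map σ.toAlgHom Q = Q) →
      ∃ R : B.pts Ω, (∀ σ : Ω ≃ₐ[L] Ω, B.map σ.toAlgHom R = R) ∧ p ^ k • R = Q := by
    intro k
    induction k with
    | zero =>
      intro Q hQ
      exact ⟨Q, hQ, by rw [pow_zero, one_smul]⟩
    | succ k ih =>
      intro Q hQ
      obtain ⟨R, hR, hR2⟩ := ih Q hQ
      obtain ⟨R', hR', hR2'⟩ := h2 R hR
      exact ⟨R', hR', by rw [pow_succ, mul_smul, hR2', hR2]⟩
  obtain ⟨R, hR, hR2⟩ := h3 k (N.φ Ω (A.map e.symm.toAlgHom P)) (by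
    intro σ
    rw [← N.hφ Ω Ω σ.toAlgHom]
    congr 1
    refine (dn_map A e P σ).trans ?_
    rw [hP (cj e σ)])
  have h4 : p ^ k • A.map e.toAlgHom (N.ψ Ω R) = n • P := by
    rw [← map_nsmul, ← map_nsmul, hR2, N.hn, map_nsmul, up_dn]
  obtain ⟨z, hz, hz2⟩ := exists_norm (act A) (act_mul A) (stab (emb L e)) (m := p ^ k) (x := n • P)
    (y := A.map e.toAlgHom (N.ψ Ω R)) (fun g => by
      rw [map_nsmul]
      congr 1
      exact hP g) (fun h hh => by
      obtain ⟨σ, rfl⟩ := exists_cj (L := L) e h hh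
      show A.map (cj e σ).toAlgHom _ = _
      rw [up_map A e]
      congr 1
      have h5 := N.hψ Ω Ω σ.toAlgHom R
      rw [hR σ] at h5
      exact h5.symm) h4
  refine ⟨z, hz, ?_⟩
  rw [hz2, stab_index, smul_smul, mul_comm]

include N e in
/-- rational points, index prime to `p` -/
theorem pts_cop {p : ℕ}
    (h1 : ∀ Q : B.pts Ω, (∀ σ : Ω ≃ₐ[L] Ω, B.map σ.toAlgHom Q = Q) → p • Q = 0 → Q = 0)
    (h2 : ∀ Q : B.pts Ω, (∀ σ : Ω ≃ₐ[L] Ω, B.map σ.toAlgHom Q = Q) →
      ∃ R : B.pts Ω, (∀ σ : Ω ≃ₐ[L] Ω, B.map σ.toAlgHom R = R) ∧ p • R = Q)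
    (hn : Nat.Coprime p n) :
    Set.BijOn (fun P => p • P) (RatPts A) (RatPts A) := by
  obtain ⟨h4, h5⟩ := fixed_p N e h1 h2 hn
  have hsub : ∀ P ∈ RatPts A, ∀ h ∈ stab (emb L e), act A h P = P := fun P hP h _ => hP h
  refine ⟨fun P hP σ => ?_, fun P hP Q hQ hPQ => ?_, fun P hP => ?_⟩
  · show A.map σ.toAlgHom (p • P) = p • P
    rw [map_nsmul, hP σ]
  · have h6 : p • (P - Q) = 0 := by
      rw [smul_sub]
      exact sub_eq_zero.2 hPQ
    have h7 := h4 (P - Q) (fun h hh => by
      rw [map_sub, hsub P hP h hh, hsub Q hQ h hh]) h6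
    exact sub_eq_zero.1 h7
  · obtain ⟨Q, hQ, hQ2⟩ := h5 P (hsub P hP)
    refine ⟨Q, fun σ => ?_, hQ2⟩
    -- `σ Q - Q` is killed by `p` and fixed by the stabilizer
    have hnn := stab_normal (emb L e)
    have h6 : act A σ Q - Q = 0 := by
      apply h4
      · intro h hh
        have h7 : h * σ = σ * (σ⁻¹ * h * σ) := by group
        have h8 : σ⁻¹ * h * σ ∈ stab (emb L e) := by
          have := hnn.conj_mem h hh σ⁻¹
          rwa [inv_inv] at this
        rw [map_sub, ← act_mul, h7, act_mul, hQ _ h8, hQ h hh]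
      · rw [smul_sub, ← map_nsmul, hQ2]
        exact sub_eq_zero.2 (hP σ)
    exact sub_eq_zero.1 h6

end main

end Pool.Agent.H428.V
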