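import Pool.Graph.R_seed8.Y160.SL.Jac

/-!
# Group functors over a field, their rational points and their Tate-Shafarevich groups
-/

set_option autoImplicit false
set_option linter.all false

namespace Pool.Agent.H428.V.B

open Polynomial IsDedekindDomain

open Pool.Agent.TH115.GD (Sep Comp)

/-- A separably closed extension field of `K`. -/
structure SepExt (K : Type) [Field K] where
  carrier : Type
  [field : Field carrier]
  [closed : IsSepClosed carrier]
  [alg : Algebra K carrier]

attribute [instance] SepExt.field SepExt.closed SepExt.alg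

instance (K : Type) [Field K] : CoeSort (SepExt K) Type := ⟨SepExt.carrier⟩

/-- The separable closure of the extension field `E` of `K`. -/
noncomputable def cl (K E : Type) [Field K] [Field E] [Algebra K E] : SepExt K := ⟨Sep E⟩

/-- A covariant functor `A` from the separably closed extension fields of `K` to the abelian groups. An
abelian variety `A` over `K` gives such a functor: `Ω` is mapped to the group `A(Ω)`. -/
structure GroupFunctor (K : Type) [Field K] where
  /-- the group `A(Ω)` -/
  pts : SepExt K → Type
  [grp : ∀ Ω : SepExt K, AddCommGroup (pts Ω)]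
  /-- the homomorphism `A(Ω) → A(Ω')` -/
  map : ∀ {Ω Ω' : SepExt K}, (Ω →ₐ[K] Ω') → pts Ω →+ pts Ω'
  map_id : ∀ (Ω : SepExt K) (P : pts Ω), map (AlgHom.id K Ω) P = P
  map_comp : ∀ {Ω Ω' Ω'' : SepExt K} (φ : Ω →ₐ[K] Ω') (ψ : Ω' →ₐ[K] Ω'') (P : pts Ω),
    map (ψ.comp φ) P = map ψ (map φ P)

attribute [instance] GroupFunctor.grp

/-- The absolute Galois group of `K`; `Sep K` is the separable closure of `K`. -/
abbrev Gal (K : Type) [Field K] : Type := Sep K ≃ₐ[K] Sep K

section

variable {K : Type} [Field K] {A : GroupFunctor K}

/-- The action of the absolute Galois group of the extension field `E` of `K` on the points over the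
separable closure of `E`. -/
noncomputable def act {E : Type} [Field E] [Algebra K E] (σ : Gal E) :
    A.pts (cl K E) →+ A.pts (cl K E) :=
  A.map (Ω := cl K E) (Ω' := cl K E) (σ.toAlgHom.restrictScalars K)

variable (A)

/-- Functions on the absolute Galois group of `K` with values in `A(Sep K)`. -/
abbrev Cochain : Type := Gal K → A.pts (cl K K)

variable {A}

/-- `c` is a continuous cocycle: `c (σ τ) = c σ + σ (c τ)`. -/
def IsCocycle (c : Cochain A) : Prop :=
  IsLocallyConstant c ∧ ∀ σ τ : Gal K, c (σ * τ) = c σ + act σ (c τ)

/-- `c` is a coboundary: `c σ = σ P - P`. -/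
def IsCoboundary (c : Cochain A) : Prop := ∃ P : A.pts (cl K K), ∀ σ : Gal K, c σ = act σ P - P

/-- The restriction of the class of `c` to the absolute Galois group of the extension field `E` of `K`
is zero: for a `K`-embedding `ι` of the separable closures there is a point `P` with `c σ = τ P - P` for
every automorphism `τ` of the separable closure of `E` with restriction `σ`. -/
def LocTriv (E : Type) [Field E] [Algebra K E] (c : Cochain A) : Prop :=
  ∃ (ι : cl K K →ₐ[K] cl K E) (P : A.pts (cl K E)), ∀ (τ : Gal E) (σ : Gal K),
    (∀ x : Sep K, τ (ι x) = ι (σ x)) → A.map ι (c σ) = act τ P - P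

/-- `c` is a continuous cocycle which is trivial over the completions of `K` at all the maximal ideals
of `S`. -/
def IsShaCocycle (S : Type) [CommRing S] [IsDedekindDomain S] [Algebra S K] [IsFractionRing S K]
    (c : Cochain A) : Prop :=
  IsCocycle c ∧ ∀ v : HeightOneSpectrum S, LocTriv (Comp S K v) c

variable (A)

/-- `A(K)`: the points over the separable closure which are fixed by the absolute Galois group. -/
def RatPts : Set (A.pts (cl K K)) := {P | ∀ σ : Gal K, act σ P = P}

variable (S : Type) [CommRing S] [IsDedekindDomain S] [Algebra S K] [IsFractionRing S K]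

/-- `N` kills the `p`-primary part of the group of the classes in `H ^ 1 (K, A)` which are locally
trivial at the maximal ideals of `S`. -/
def KillsSha (p N : ℕ) : Prop :=
  ∀ (c : Cochain A) (m : ℕ), IsShaCocycle S c → IsCoboundary (p ^ m • c) → IsCoboundary (N • c)

/-- Multiplication by `p` is bijective on `A(K)`, and the `p`-primary part of the group of the classes
in `H ^ 1 (K, A)` which are locally trivial at the maximal ideals of `S` is zero. -/
def NoPart (p : ℕ) : Prop :=
  Set.BijOn (fun P => p • P) (RatPts A) (RatPts A) ∧ KillsSha A S p 1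

/-- `N P` is divisible by all powers of `p` in `A(K)` for all `P` in `A(K)`, and `N` kills the
`p`-primary part of the group of the classes in `H ^ 1 (K, A)` which are locally trivial at the maximal
ideals of `S`. -/
def NoPartUpTo (p N : ℕ) : Prop :=
  (∀ P ∈ RatPts A, ∀ k : ℕ, ∃ Q ∈ RatPts A, p ^ k • Q = N • P) ∧ KillsSha A S p N

end

section

variable {K L : Type} [Field K] [Field L] [Algebra K L]

variable (K) in
/-- A separably closed extension field of `L` as an extension field of `K`. -/
def SepExt.down (Ω : SepExt L) : SepExt K :=
  { carrier := Ω.carrier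
    alg := ((algebraMap L Ω).comp (algebraMap K L)).toAlgebra }

variable (K) in
/-- A homomorphism over `L` as a homomorphism over `K`. -/
def downHom {Ω Ω' : SepExt L} (f : Ω →ₐ[L] Ω') : Ω.down K →ₐ[K] Ω'.down K :=
  { f.toRingHom with commutes' := fun x => f.commutes (algebraMap K L x) }

/-- A natural homomorphism `B → B'`. -/
structure Hom (B B' : GroupFunctor L) where
  app : ∀ Ω : SepExt L, B.pts Ω →+ B'.pts Ω
  natural : ∀ {Ω Ω' : SepExt L} (f : Ω →ₐ[L] Ω') (P : B.pts Ω),
    app Ω' (B.map f P) = B'.map f (app Ω P)

variable (L) in
/-- The functor `A` on the separably closed extension fields of `L`. -/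
def GroupFunctor.over (A : GroupFunctor K) : GroupFunctor L where
  pts Ω := A.pts (Ω.down K)
  map f := A.map (downHom K f)
  map_id Ω P := A.map_id (Ω.down K) P
  map_comp f f' P := A.map_comp (downHom K f) (downHom K f') P

/-- There are natural homomorphisms `φ : A → B` and `ψ : B → A` over `L` such that `ψ ∘ φ` is
multiplication by `n`. (For abelian varieties `A` over `K` and `B` over `L` these may be homomorphisms of
abelian varieties over `L`; then `A` is an isogeny factor of `B` over `L`.) -/
def IsFactor (A : GroupFunctor K) (B : GroupFunctor L) (n : ℕ) : Prop :=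
  ∃ (φ : Hom (A.over L) B) (ψ : Hom B (A.over L)),
    ∀ (Ω : SepExt L) (P : (A.over L).pts Ω), ψ.app Ω (φ.app Ω P) = n • P

end

section

open Pool.Agent.Y160.SL (Jac jm)

variable {L : Type} [Field L] {I : Type} (q : I → ℕ) (f : I → L[X])

/-- The points of the product of the Jacobians of the curves `w ^ (q i) = f i (x)`. -/
def Pts (Ω : SepExt L) : Type := ∀ i, Jac (q i) (f i) Ω

noncomputable instance instGroup (Ω : SepExt L) : AddCommGroup (Pts q f Ω) :=
  Pi.addCommGroup

/-- The maps of the Jacobians. -/
noncomputable def mapPts {Ω Ω' : SepExt L} (φ : Ω →ₐ[L] Ω') (P : Pts q f Ω) : Pts q f Ω' :=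
  fun i => jm (q i) (f i) φ (P i)

end

end Pool.Agent.H428.V.B
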