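import Pool.Agent.H428.V.Res
import Pool.Agent.H428.F.Grp

/-!
# Transfer of triviality results from a Galois extension
-/

set_option autoImplicit false
set_option linter.unusedSectionVars false

namespace Pool.Agent.H428.V

open IsDedekindDomain

open scoped Classical

open Pool.Agent.TH115.GD (Sep Comp)

open Pool.Agent.H428.F (CobOn Coc Cob cob_of_cobOn exists_norm cob_coprime)

section

variable {K L : Type} [Field K] [Field L] [Algebra K L] (B : GroupFunctor L) {Ω : Type} [Field Ω]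
  [IsSepClosed Ω] [Algebra L Ω]

/-- cocycles with values in `B` -/
def CocB (d : (Ω ≃ₐ[L] Ω) → B.pts Ω) : Prop :=
  IsLocallyConstant d ∧ ∀ σ τ : Ω ≃ₐ[L] Ω, d (σ * τ) = d σ + B.map σ.toAlgHom (d τ)

/-- coboundaries with values in `B` -/
def CobB (d : (Ω ≃ₐ[L] Ω) → B.pts Ω) : Prop :=
  ∃ Q : B.pts Ω, ∀ σ : Ω ≃ₐ[L] Ω, d σ = B.map σ.toAlgHom Q - Q

/-- local triviality -/
def LocB (E Ω' : Type) [Field E] [Field Ω'] [IsSepClosed Ω'] [Algebra E Ω']
    [Algebra L E] [Algebra L Ω'] [IsScalarTower L E Ω'] (d : (Ω ≃ₐ[L] Ω) → B.pts Ω) : Prop :=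
  ∃ (ι : Ω →ₐ[L] Ω') (P : B.pts Ω'), ∀ (τ : Ω' ≃ₐ[E] Ω') (σ : Ω ≃ₐ[L] Ω),
    (∀ x : Ω, τ (ι x) = ι (σ x)) →
    B.map ι (d σ) = B.map (τ.toAlgHom.restrictScalars L) P - P

variable {B} {A : GroupFunctor K}

/-- the natural homomorphisms -/
structure Nat2 (A : GroupFunctor K) (B : GroupFunctor L) (n : ℕ) where
  φ : ∀ (Ω : Type) [Field Ω] [IsSepClosed Ω] [Algebra K Ω] [Algebra L Ω] [IsScalarTower K L Ω],
        A.pts Ω →+ B.pts Ω
  ψ : ∀ (Ω : Type) [Field Ω] [IsSepClosed Ω] [Algebra K Ω] [Algebra L Ω] [IsScalarTower K L Ω],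
        B.pts Ω →+ A.pts Ω
  hφ : ∀ (Ω Ω' : Type) [Field Ω] [IsSepClosed Ω] [Algebra K Ω] [Algebra L Ω] [IsScalarTower K L Ω]
      [Field Ω'] [IsSepClosed Ω'] [Algebra K Ω'] [Algebra L Ω'] [IsScalarTower K L Ω']
      (f : Ω →ₐ[L] Ω') (P : A.pts Ω), φ Ω' (A.map (f.restrictScalars K) P) = B.map f (φ Ω P)
  hψ : ∀ (Ω Ω' : Type) [Field Ω] [IsSepClosed Ω] [Algebra K Ω] [Algebra L Ω] [IsScalarTower K L Ω]
      [Field Ω'] [IsSepClosed Ω'] [Algebra K Ω'] [Algebra L Ω'] [IsScalarTower K L Ω']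
      (f : Ω →ₐ[L] Ω') (Q : B.pts Ω), ψ Ω' (B.map f Q) = A.map (f.restrictScalars K) (ψ Ω Q)
  hn : ∀ (Ω : Type) [Field Ω] [IsSepClosed Ω] [Algebra K Ω] [Algebra L Ω] [IsScalarTower K L Ω]
      (P : A.pts Ω), ψ Ω (φ Ω P) = n • P

lemma IsFactor.nat2 {n : ℕ} (h : IsFactor A B n) : Nonempty (Nat2 A B n) := by
  obtain ⟨φ, ψ, h1, h2, h3⟩ := h
  exact ⟨⟨φ, ψ, h1, h2, h3⟩⟩

variable [Algebra K Ω] [IsScalarTower K L Ω]

variable {n : ℕ} (N : Nat2 A B n) (e : Ω ≃ₐ[K] Sep K)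

/-- the cochain with values in `B` -/
noncomputable def push (c : Cochain A) (σ : Ω ≃ₐ[L] Ω) : B.pts Ω := N.φ Ω (res A e c σ)

lemma push_coc [Algebra.IsAlgebraic L Ω] {c : Cochain A} (hc : IsCocycle c) :
    CocB B (push N e c) := by
  refine ⟨(res_lc A e hc).comp _, fun σ τ => ?_⟩
  show N.φ Ω (res A e c (σ * τ)) = _
  rw [res_mul A e hc, map_add]
  congr 1
  exact N.hφ Ω Ω σ.toAlgHom (res A e c τ)

lemma push_loc [Algebra.IsSeparable L Ω] {c : Cochain A} (hc : IsCocycle c) {E : Type} [Field E]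
    [Algebra K E] (h : LocTriv E c) {F : Type} [Field F] [Algebra K F] [Algebra L F]
    [IsScalarTower K L F] (θ : E →ₐ[K] F) {Ω' : Type} [Field Ω'] [IsSepClosed Ω'] [Algebra F Ω']
    [Algebra K Ω'] [IsScalarTower K F Ω'] [Algebra L Ω'] [IsScalarTower K L Ω']
    [IsScalarTower L F Ω'] : LocB B F Ω' (push N e c) := by
  let ι : Ω →ₐ[L] Ω' := IsSepClosed.lift
  obtain ⟨P, hP⟩ := res_loc A (L := L) e hc h θ (Ω' := Ω') (ι.restrictScalars K)
  refine ⟨ι, N.φ Ω' P, fun τ σ hτ => ?_⟩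
  have h1 := congrArg (N.φ Ω') (hP τ σ hτ)
  rw [map_sub] at h1
  have h2 := N.hφ Ω Ω' ι (res A e c σ)
  have h3 := N.hφ Ω' Ω' (τ.toAlgHom.restrictScalars L) P
  show B.map ι (N.φ Ω (res A e c σ)) = _
  rw [← h2, ← h3]
  exact h1

lemma push_nsmul (c : Cochain A) (m : ℕ) (σ : Ω ≃ₐ[L] Ω) :
    push N e (m • c) σ = m • push N e c σ := by
  show N.φ Ω (A.map _ (m • c (cj e σ))) = m • N.φ Ω (A.map _ (c (cj e σ)))
  rw [map_nsmul, map_nsmul]

lemma push_cob {c : Cochain A} (h : IsCoboundary c) : CobB B (push N e c) := by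
  obtain ⟨P, hP⟩ := h
  refine ⟨N.φ Ω (A.map e.symm.toAlgHom P), fun σ => ?_⟩
  show N.φ Ω (A.map e.symm.toAlgHom (c (cj e σ))) = _
  have h2 : A.map e.symm.toAlgHom (A.map (cj e σ).toAlgHom P) =
      A.map (σ.toAlgHom.restrictScalars K) (A.map e.symm.toAlgHom P) :=
    (dn_map A e P σ).symm
  rw [hP, map_sub, map_sub, h2, N.hφ Ω Ω σ.toAlgHom]

/-- the stabilizer of the embedding of `L` -/
def stab (lam : L →ₐ[K] Sep K) : Subgroup (Gal K) where
  carrier := {g | ∀ x, g (lam x) = lam x}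
  one_mem' := fun x => rfl
  mul_mem' := by
    intro g h hg hh x
    show g (h (lam x)) = lam x
    rw [hh, hg]
  inv_mem' := by
    intro g hg x
    show g⁻¹ (lam x) = lam x
    conv_lhs => rw [← hg x]
    rw [← AlgEquiv.mul_apply, inv_mul_cancel, AlgEquiv.one_apply]

lemma mem_stab {lam : L →ₐ[K] Sep K} {g : Gal K} : g ∈ stab lam ↔ ∀ x, g (lam x) = lam x :=
  Iff.rfl

/-- the embedding of `L` -/
noncomputable abbrev emb (L : Type) [Field L] [Algebra K L] [Algebra L Ω] [IsScalarTower K L Ω]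
    (e : Ω ≃ₐ[K] Sep K) : L →ₐ[K] Sep K :=
  e.toAlgHom.comp (IsScalarTower.toAlgHom K L Ω)

/-- If `push c` is a coboundary, then `n c` is a coboundary on the subgroup which fixes `L`. -/
lemma cobOn_of_push [Algebra.IsAlgebraic L Ω] {c : Cochain A} (h : CobB B (push N e c)) :
    CobOn (act A) (stab (emb L e)) (n • c) := by
  obtain ⟨Q, hQ⟩ := h
  refine ⟨A.map e.toAlgHom (N.ψ Ω Q), fun g hg => ?_⟩
  obtain ⟨σ, rfl⟩ := exists_cj (L := L) e g hg
  have h1 := congrArg (N.ψ Ω) (hQ σ)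
  have h2 : N.ψ Ω (push N e c σ) = n • res A e c σ := N.hn Ω _
  have h3 : N.ψ Ω (B.map σ.toAlgHom Q) = A.map (σ.toAlgHom.restrictScalars K) (N.ψ Ω Q) :=
    N.hψ Ω Ω σ.toAlgHom Q
  rw [h2, map_sub, h3] at h1
  have h4 := congrArg (A.map e.toAlgHom) h1
  rw [map_nsmul, map_sub] at h4
  have h5 : A.map e.toAlgHom (res A e c σ) = c (cj e σ) := up_dn A e _
  rw [h5, ← up_map A e] at h4
  exact h4

include N in
/-- The points which are fixed by the stabilizer of `L`: divisibility and torsion. -/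
lemma fixed_p [Algebra.IsAlgebraic L Ω] {p : ℕ}
    (h1 : ∀ Q : B.pts Ω, (∀ σ : Ω ≃ₐ[L] Ω, B.map σ.toAlgHom Q = Q) → p • Q = 0 → Q = 0)
    (h2 : ∀ Q : B.pts Ω, (∀ σ : Ω ≃ₐ[L] Ω, B.map σ.toAlgHom Q = Q) →
      ∃ R : B.pts Ω, (∀ σ : Ω ≃ₐ[L] Ω, B.map σ.toAlgHom R = R) ∧ p • R = Q)
    (hn : Nat.Coprime p n) :
    (∀ x : A.pts (Sep K), (∀ h ∈ stab (emb L e), act A h x = x) → p • x = 0 → x = 0) ∧
    (∀ x : A.pts (Sep K), (∀ h ∈ stab (emb L e), act A h x = x) →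
      ∃ y : A.pts (Sep K), (∀ h ∈ stab (emb L e), act A h y = y) ∧ p • y = x) := by
  -- the fixed points of `A` and those of `B`
  have key : ∀ x : A.pts (Sep K), (∀ h ∈ stab (emb L e), act A h x = x) →
      ∀ σ : Ω ≃ₐ[L] Ω, B.map σ.toAlgHom (N.φ Ω (A.map e.symm.toAlgHom x)) =
        N.φ Ω (A.map e.symm.toAlgHom x) := by
    intro x hx σ
    rw [← N.hφ Ω Ω σ.toAlgHom]
    congr 1
    refine (dn_map A e x σ).trans ?_
    have h3 := hx (cj e σ) (fun y => cj_fix e σ y)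
    have h4 : A.map (cj e σ).toAlgHom x = x := h3
    rw [h4]
  have key2 : ∀ Q : B.pts Ω, (∀ σ : Ω ≃ₐ[L] Ω, B.map σ.toAlgHom Q = Q) →
      ∀ h ∈ stab (emb L e),
        act A h (A.map e.toAlgHom (N.ψ Ω Q)) = A.map e.toAlgHom (N.ψ Ω Q) := by
    intro Q hQ h hh
    obtain ⟨σ, rfl⟩ := exists_cj (L := L) e h hh
    show A.map (cj e σ).toAlgHom _ = _
    rw [up_map A e]
    congr 1
    have h3 := N.hψ Ω Ω σ.toAlgHom Q
    rw [hQ σ] at h3
    exact h3.symm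
  have hback : ∀ x : A.pts (Sep K),
      A.map e.toAlgHom (N.ψ Ω (N.φ Ω (A.map e.symm.toAlgHom x))) = n • x := by
    intro x
    rw [N.hn, map_nsmul, up_dn]
  obtain ⟨u, v, huv⟩ := Nat.isCoprime_iff_coprime.2 hn
  have hcomb : ∀ x : A.pts (Sep K), x = u • (p • x) + v • (n • x) := by
    intro x
    rw [← natCast_zsmul x p, ← natCast_zsmul x n, smul_smul, smul_smul, ← add_smul, huv, one_smul]
  constructor
  · intro x hx hx2
    have h3 : N.φ Ω (A.map e.symm.toAlgHom x) = 0 := by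
      apply h1 _ (key x hx)
      rw [← map_nsmul, ← map_nsmul, hx2, map_zero, map_zero]
    have h4 := hback x
    rw [h3, map_zero, map_zero] at h4
    rw [hcomb x, hx2, ← h4, smul_zero, smul_zero, add_zero]
  · intro x hx
    obtain ⟨R, hR, hR2⟩ := h2 _ (key x hx)
    refine ⟨u • x + v • A.map e.toAlgHom (N.ψ Ω R), fun h hh => ?_, ?_⟩
    · rw [map_add, map_zsmul, map_zsmul, hx h hh, key2 R hR h hh]
    · have h3 : p • A.map e.toAlgHom (N.ψ Ω R) = n • x := by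
        rw [← map_nsmul, ← map_nsmul, hR2]
        exact hback x
      rw [smul_add, smul_comm p u, smul_comm p v, h3]
      exact (hcomb x).symm

end

end Pool.Agent.H428.V
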